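import Mathlib
import Pool.Graph.R_seed8.Y137.MV.Main
import Pool.Graph.R_seed8.Y137.MV.Defs

/-!
# The angle rank, and numbers which force relations to be balanced
-/

set_option autoImplicit false

namespace Pool.Agent.H857.NF

open NumberField Polynomial Module IntermediateField Pool.Agent.Y137.MV Pool.Agent.H204R3.GP

section

variable {ι : Type} {F : ι → Type} [∀ i, Field (F i)] [∀ i, NumberField (F i)] {π : ∀ i, F i}

/-- The values of different embeddings are different. -/
theorem val_injective (hgen : ∀ i, ℚ⟮π i⟯ = ⊤)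
    (hdist : ∀ i i', minpoly ℚ (π i) = minpoly ℚ (π i') → i = i') {L : Type*} [Field L]
    [CharZero L] : Function.Injective (val π : (Σ i, (F i →+* L)) → L) := by
  rintro ⟨i, φ⟩ ⟨i', φ'⟩ h
  have h' : φ (π i) = φ' (π i') := h
  have hmin : ∀ (i : ι) (φ : F i →+* L), minpoly ℚ (φ (π i)) = minpoly ℚ (π i) := fun i φ =>
    minpoly.algHom_eq (RingHom.toRatAlgHom φ) φ.injective (π i)
  obtain rfl : i = i' := hdist _ _ (by rw [← hmin i φ, ← hmin i' φ', h'])
  have h1 : (RingHom.toRatAlgHom φ) = RingHom.toRatAlgHom φ' := by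
    refine AlgHom.ext_of_adjoin_eq_top (s := {π i}) ?_ ?_
    · rw [← IntermediateField.adjoin_simple_toSubalgebra_of_isAlgebraic
        (Algebra.IsAlgebraic.isAlgebraic (π i)), hgen i]
      rfl
    · rintro x hx
      rw [Set.mem_singleton_iff] at hx
      subst hx
      exact h'
  have h2 : φ = φ' := by
    ext x
    exact congrArg (fun u : F i →ₐ[ℚ] L => u x) h1
  rw [h2]

end

section

variable {I : Type} {f : I → ℤ[X]} {q : ℕ} {R : ℂ → Prop}

/-- A multiset of roots with product in `R` is balanced. -/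
def Balanced (f : I → ℤ[X]) (q : ℕ) (R : ℂ → Prop) : Prop :=
  open Classical in ∀ M : Multiset ℂ, (∀ z ∈ M, ∃ i, aeval z (f i) = 0) → R M.prod →
    ∀ z, M.count z = M.count (q / z)

variable {ι : Type} [Fintype ι] {F : ι → Type} [∀ i, Field (F i)] [∀ i, NumberField (F i)]
  [∀ i, IsCMField (F i)] {π : ∀ i, F i}

theorem aeval_emb {i : ι} {j : I} (h : aeval (π i) (f j) = 0) (φ : F i →+* ℂ) :
    aeval (φ (π i)) (f j) = 0 := by
  have h1 : aeval (φ (π i)) (f j) = φ (aeval (π i) (f j)) :=
    aeval_algHom_apply (φ.toIntAlgHom) _ _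
  rw [h1, h, map_zero]

variable (hgen : ∀ i, ℚ⟮π i⟯ = ⊤)
  (hdist : ∀ i i', minpoly ℚ (π i) = minpoly ℚ (π i') → i = i')
  (hw : ∀ i, π i * IsCMField.complexConj (F i) (π i) = (q : F i))
  (hroot : ∀ i, ∃ j, aeval (π i) (f j) = 0) (hq : 0 < q)
  (hM : Balanced f q R)

include hgen hdist hw hroot hq hM

/-- The conjugate embedding. -/
def cj {F : ι → Type} [∀ i, Field (F i)] (x : Σ i, (F i →+* ℂ)) : Σ i, (F i →+* ℂ) :=
  ⟨x.1, ComplexEmbedding.conjugate x.2⟩

theorem maximalAngleRank (hpow : ∀ r : ℤ, R ((q : ℂ) ^ r)) : MaximalAngleRank q π := by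
  classical
  intro r n hrel i φ
  have hq' : (q : ℂ) ≠ 0 := by exact_mod_cast hq.ne'
  have hinj := val_injective (L := ℂ) hgen hdist
  have hcj2 : ∀ x : Σ i, (F i →+* ℂ), cj (cj x) = x := by
    rintro ⟨i, φ⟩
    simp only [cj]
    congr 1
    exact star_star φ
  have hv : ∀ x : Σ i, (F i →+* ℂ), val π x * val π (cj x) = q := by
    rintro ⟨i, φ⟩
    change φ (π i) * (starRingEnd ℂ) (φ (π i)) = q
    rw [← IsCMField.complexEmbedding_complexConj, ← map_mul, hw, map_natCast]
  have hv0 : ∀ x : Σ i, (F i →+* ℂ), val π x ≠ 0 := fun x h0 => by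
    have := hv x
    rw [h0, zero_mul] at this
    exact hq' this.symm
  have hvd : ∀ x : Σ i, (F i →+* ℂ), (q : ℂ) / val π x = val π (cj x) := fun x => by
    rw [div_eq_iff (hv0 x), mul_comm, hv]
  let M : Multiset ℂ := ∑ x : (Σ i, (F i →+* ℂ)),
    ((n x).toNat • ({val π x} : Multiset ℂ) + (-n x).toNat • ({val π (cj x)} : Multiset ℂ))
  have hMr : ∀ z ∈ M, ∃ i, aeval z (f i) = 0 := by
    intro z hz
    rw [Multiset.mem_sum] at hz
    obtain ⟨x, -, hx⟩ := hz
    have key : ∀ y : Σ i, (F i →+* ℂ), ∃ i, aeval (val π y) (f i) = 0 := by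
      rintro ⟨i, φ⟩
      obtain ⟨j, hj⟩ := hroot i
      exact ⟨j, aeval_emb hj φ⟩
    rcases Multiset.mem_add.1 hx with h | h
    · have := Multiset.mem_of_mem_nsmul h
      rw [Multiset.mem_singleton] at this
      rw [this]
      exact key x
    · have := Multiset.mem_of_mem_nsmul h
      rw [Multiset.mem_singleton] at this
      rw [this]
      exact key _
  have hMp : ∃ r : ℤ, M.prod = (q : ℂ) ^ r := by
    refine ⟨r + ∑ x, ((-n x).toNat : ℤ), ?_⟩
    change (∑ x : (Σ i, (F i →+* ℂ)), ((n x).toNat • ({val π x} : Multiset ℂ) +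
      (-n x).toNat • ({val π (cj x)} : Multiset ℂ))).prod = _
    rw [Multiset.prod_sum, zpow_add₀ hq', ← hrel, ← Nat.cast_sum, zpow_natCast,
      ← Finset.prod_pow_eq_pow_sum, ← Finset.prod_mul_distrib]
    refine Finset.prod_congr rfl fun x _ => ?_
    rw [Multiset.prod_add, Multiset.prod_nsmul, Multiset.prod_nsmul, Multiset.prod_singleton,
      Multiset.prod_singleton]
    change val π x ^ _ * _ = val π x ^ n x * _
    rw [← hvd x, div_pow, ← zpow_natCast (val π x) (n x).toNat,
      ← zpow_natCast (val π x) (-n x).toNat, div_eq_mul_inv, ← zpow_neg, mul_comm ((q : ℂ) ^ _),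
      ← mul_assoc, ← zpow_add₀ (hv0 x)]
    congr 2
    omega
  obtain ⟨r', hr'⟩ := hMp
  have hbal := hM M hMr (by rw [hr']; exact hpow r') (val π ⟨i, φ⟩)
  rw [hvd] at hbal
  have hcount : ∀ y : Σ i, (F i →+* ℂ), M.count (val π y) = (n y).toNat + (-n (cj y)).toNat := by
    intro y
    change Multiset.count (val π y) (∑ x : (Σ i, (F i →+* ℂ)), ((n x).toNat •
      ({val π x} : Multiset ℂ) + (-n x).toNat • ({val π (cj x)} : Multiset ℂ))) = _
    rw [Multiset.count_sum']
    simp only [Multiset.count_add, Multiset.count_nsmul, Multiset.count_singleton]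
    rw [Finset.sum_add_distrib]
    congr 1
    · rw [Finset.sum_eq_single y]
      · rw [if_pos rfl, mul_one]
      · intro x _ hx
        rw [if_neg (fun h => hx (hinj h).symm), mul_zero]
      · intro h
        exact absurd (Finset.mem_univ y) h
    · rw [Finset.sum_eq_single (cj y)]
      · rw [hcj2, if_pos rfl, mul_one]
      · intro x _ hx
        rw [if_neg (fun h => hx ?_), mul_zero]
        rw [hinj h, hcj2]
      · intro h
        exact absurd (Finset.mem_univ _) h
  rw [hcount, hcount, hcj2] at hbal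
  change n ⟨i, φ⟩ = n (cj ⟨i, φ⟩)
  omega

theorem forces (hcl : ∀ (x y : ℂ) (N : ℕ), 0 < N → x ^ N = y ^ N → R y → R x) {L : Type} [Field L]
    [NumberField L] (j : L →+* ℂ) (β : L) (hβ : R (j β)) (i : ι) : Forces π β i := by
  classical
  intro K N G hN hβN φ
  have hq' : (q : ℂ) ≠ 0 := by exact_mod_cast hq.ne'
  have hinj : Function.Injective (fun x : (Σ i, (F i →+* L)) => j (val π x)) :=
    j.injective.comp (val_injective hgen hdist)
  have hv : ∀ x : Σ i, (F i →+* L), j (val π x) * j (val π (bar x)) = q := by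
    intro x
    rw [← map_mul]
    change j (x.2 (π x.1) * x.2 (IsCMField.complexConj (F x.1) (π x.1))) = _
    rw [← map_mul x.2, hw, map_natCast, map_natCast]
  have hv0 : ∀ x : Σ i, (F i →+* L), j (val π x) ≠ 0 := fun x h0 => by
    have := hv x
    rw [h0, zero_mul] at this
    exact hq' this.symm
  have hvd : ∀ x : Σ i, (F i →+* L), (q : ℂ) / j (val π x) = j (val π (bar x)) := fun x => by
    rw [div_eq_iff (hv0 x), mul_comm, hv]
  let M : Multiset ℂ := (Finset.univ : Finset (Fin K)).val.map fun l => j (val π (G l))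
  have hMr : ∀ z ∈ M, ∃ i, aeval z (f i) = 0 := by
    intro z hz
    obtain ⟨l, -, rfl⟩ := Multiset.mem_map.1 hz
    obtain ⟨j', hj'⟩ := hroot (G l).1
    exact ⟨j', aeval_emb hj' (j.comp (G l).2)⟩
  have hprod : M.prod = j (∏ l, val π (G l)) := by
    rw [map_prod]
    rfl
  have hbal := hM M hMr (hcl _ (j β) N hN (by
    rw [hprod, ← map_pow, ← map_pow, hβN, Finset.prod_pow]) hβ) (j (val π ⟨i, φ⟩))
  rw [hvd] at hbal
  have hcount : ∀ y : Σ i, (F i →+* L), M.count (j (val π y)) =
      (Finset.univ.filter (fun l => G l = y)).card := by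
    intro y
    rw [Multiset.count_map, Finset.card_def, Finset.filter_val]
    congr 1
    refine Multiset.filter_congr fun l _ => ?_
    exact ⟨fun h => (hinj h).symm, fun h => by rw [h]⟩
  rw [hcount, hcount] at hbal
  convert hbal

end

end Pool.Agent.H857.NF
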