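import Pool.Agent.H857.NF.CM

/-!
# The CM fields of a family of Weil polynomials
-/

set_option autoImplicit false

namespace Pool.Agent.H857.NF

open NumberField Polynomial Module IntermediateField UniqueFactorizationMonoid

theorem adjoinRoot_data (h : ℚ[X]) (hirr : Irreducible h) (hm : h.Monic) :
    ∃ (F : Type) (_ : Field F) (_ : NumberField F) (π : F), ℚ⟮π⟯ = ⊤ ∧ minpoly ℚ π = h := by
  classical
  have : Fact (Irreducible h) := ⟨hirr⟩
  have hfin : FiniteDimensional ℚ (AdjoinRoot h) :=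
    (AdjoinRoot.powerBasis hirr.ne_zero).finite
  have : NumberField (AdjoinRoot h) := { to_charZero := inferInstance, to_finiteDimensional := hfin }
  refine ⟨AdjoinRoot h, inferInstance, inferInstance, AdjoinRoot.root h, ?_, ?_⟩
  · have h1 : Algebra.adjoin ℚ {AdjoinRoot.root h} = ⊤ := AdjoinRoot.adjoinRoot_eq_top
    rw [eq_top_iff]
    intro x _
    have h2 : x ∈ Algebra.adjoin ℚ {AdjoinRoot.root h} := by rw [h1]; trivial
    exact IntermediateField.algebra_adjoin_le_adjoin _ _ h2
  · have h1 := AdjoinRoot.minpoly_root hirr.ne_zero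
    rw [hm.leadingCoeff, inv_one, C_1, mul_one] at h1
    refine Eq.trans ?_ h1
    congr 1

/-- The CM fields of a squarefree family of Weil polynomials. -/
theorem exists_family {I : Type} [Fintype I] {f : I → ℤ[X]} (hm : ∀ i, (f i).Monic) {q : ℕ}
    (hq : 0 < q) (hw : ∀ i (z : ℂ), aeval z (f i) = 0 → ‖z‖ ^ 2 = q)
    (h2 : ∀ i (z : ℂ), aeval z (f i) = 0 → z ^ 2 ≠ q)
    (hsq : Squarefree (∏ i, (f i).map (Int.castRingHom ℚ))) :
    ∃ (ι : Type) (_ : Fintype ι) (F : ι → Type) (_ : ∀ i, Field (F i))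
      (_ : ∀ i, NumberField (F i)) (_ : ∀ i, IsCMField (F i)) (π : ∀ i, F i),
      (∀ i, ℚ⟮π i⟯ = ⊤) ∧ (∀ i, π i * IsCMField.complexConj (F i) (π i) = q) ∧
      (∀ i, ∃ j, aeval (π i) (f j) = 0) ∧
      (∀ i i', minpoly ℚ (π i) = minpoly ℚ (π i') → i = i') ∧
      ∏ i, minpoly ℚ (π i) = ∏ i, (f i).map (Int.castRingHom ℚ) := by
  classical
  set P : ℚ[X] := ∏ i, (f i).map (Int.castRingHom ℚ) with hP
  have hPm : P.Monic := monic_prod_of_monic _ _ fun i _ => (hm i).map _
  have hP0 : P ≠ 0 := hPm.ne_zero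
  set S : Finset ℚ[X] := (normalizedFactors P).toFinset with hS
  have hnd : (normalizedFactors P).Nodup :=
    (squarefree_iff_nodup_normalizedFactors hP0).1 hsq
  have hirr : ∀ h ∈ S, Irreducible h := fun h hh =>
    irreducible_of_normalized_factor h (Multiset.mem_toFinset.1 hh)
  have hmon : ∀ h ∈ S, h.Monic := by
    intro h hh
    have h1 := normalize_normalized_factor h (Multiset.mem_toFinset.1 hh)
    rw [← h1]
    exact monic_normalize (hirr h hh).ne_zero
  have hdvd : ∀ h ∈ S, h ∣ P := fun h hh => dvd_of_mem_normalizedFactors (Multiset.mem_toFinset.1 hh)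
  have hprod : ∏ h ∈ S, h = P := by
    have h1 : (normalizedFactors P).prod = normalize P := by
      exact prod_normalizedFactors_eq hP0
    rw [hPm.normalize_eq_self] at h1
    rw [← h1, Finset.prod_eq_multiset_prod, Multiset.map_id', hS, Multiset.toFinset_val,
      Multiset.dedup_eq_self.2 hnd]
  choose F hF hN π hgen hmin using fun h : {h // h ∈ S} => adjoinRoot_data h.1 (hirr _ h.2) (hmon _ h.2)
  have hroot : ∀ h : {h // h ∈ S}, ∃ j, aeval (π h) (f j) = 0 := by
    intro h
    have h1 : aeval (π h) P = 0 := by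
      obtain ⟨r, hr⟩ := hdvd h.1 h.2
      rw [hr, map_mul]
      have : aeval (π h) h.1 = 0 := by
        have h3 := minpoly.aeval ℚ (π h)
        rwa [hmin h] at h3
      rw [this, zero_mul]
    rw [hP, map_prod, Finset.prod_eq_zero_iff] at h1
    obtain ⟨j, -, hj⟩ := h1
    refine ⟨j, ?_⟩
    rw [aeval_def, eval₂_map] at hj
    rw [aeval_def, ← hj]
    congr 1
    exact Subsingleton.elim _ _
  have hemb : ∀ (h : {h // h ∈ S}) (φ : F h →+* ℂ), ∃ j, aeval (φ (π h)) (f j) = 0 := by
    intro h φ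
    obtain ⟨j, hj⟩ := hroot h
    refine ⟨j, ?_⟩
    have h1 : aeval (φ (π h)) (f j) = φ (aeval (π h) (f j)) :=
      aeval_algHom_apply (φ.toIntAlgHom) _ _
    rw [h1, hj, map_zero]
  choose hcm hconj using fun h : {h // h ∈ S} => exists_conj (q := q) (hgen h) hq
    (fun φ => by
      obtain ⟨j, hj⟩ := hemb h φ
      exact hw j _ hj)
    (fun φ => by
      obtain ⟨j, hj⟩ := hemb h φ
      exact h2 j _ hj)
  refine ⟨{h // h ∈ S}, inferInstance, F, hF, hN, hcm, π, hgen, hconj, hroot, ?_, ?_⟩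
  · intro h h' hh
    rw [hmin, hmin] at hh
    exact Subtype.ext hh
  · rw [← hprod, ← Finset.prod_coe_sort S]
    exact Finset.prod_congr rfl fun h _ => hmin h

end Pool.Agent.H857.NF
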