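import Pool.Agent.H857.NF.SplitDefs
import Pool.Agent.H857.NF.Angle
import Pool.Agent.H857.NF.Factor
import Pool.Graph.R_pool_sql_team_seeded_843ab51a.V1168.EV.SplitMain

/-!
# The splitting of the Tate classes for independent families of Weil polynomials
-/

set_option autoImplicit false

namespace Pool.Agent.H857.NF

open NumberField Module Polynomial IntermediateField Pool.Agent.Y137.MV Pool.Agent.Y137.SL

/-- **The splitting of the Tate classes.** -/
theorem tateClassesSplit {I : Type} [Fintype I] {f : I → ℤ[X]} {p : ℕ} [Fact p.Prime] {a : ℕ}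
    (hm : ∀ i, (f i).Monic) (hw : ∀ i (z : ℂ), aeval z (f i) = 0 → ‖z‖ ^ 2 = (p ^ a : ℕ))
    (h2 : ∀ i (z : ℂ), aeval z (f i) = 0 → z ^ 2 ≠ (p ^ a : ℕ))
    (hsq : Squarefree (∏ i, (f i).map (Int.castRingHom ℚ))) {R : ℂ → Prop}
    (hM : Balanced f (p ^ a) R) (hpow : ∀ r : ℤ, R (((p ^ a : ℕ) : ℂ) ^ r))
    (hcl : ∀ (x y : ℂ) (N : ℕ), 0 < N → x ^ N = y ^ N → R y → R x) :
    TateClassesSplit R (p ^ a) f := by
  classical
  intro k _ _ V _ _ _ M _ _ _ Γ _ ρ τ χ γ hA hτ
  have hq : 0 < p ^ a := pow_pos (Fact.out (p := p.Prime)).pos _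
  obtain ⟨ι, _, F, _, _, _, π, hgen, hconj, hroot, hdist, hprod⟩ :=
    exists_family hm hq hw h2 hsq
  obtain ⟨G, hG0, hGτ, hGR⟩ := hτ
  have hconj' : ∀ i, π i * IsCMField.complexConj (F i) (π i) = (p : F i) ^ a := by
    intro i
    rw [hconj]
    push_cast
    rfl
  have hpol : IsPolarised ρ χ γ p a π := by
    refine ⟨hA.semisimple, hA.form, ?_, ?_⟩
    · rw [hA.multiplier]
      push_cast
      rfl
    · rw [hA.charpoly]
      have h1 : ∏ i, (minpoly ℚ (π i)).map (algebraMap ℚ k) =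
          (∏ i, minpoly ℚ (π i)).map (algebraMap ℚ k) := by
        rw [Polynomial.map_prod]
      rw [h1, hprod, Polynomial.map_prod]
      refine Finset.prod_congr rfl fun i _ => ?_
      rw [Polynomial.map_map]
      congr 1
      exact Subsingleton.elim _ _
  exact Pool.Agent.V1168.EV.split_of_forces hgen hconj'
    (maximalAngleRank hgen hdist hconj hroot hq hM hpow) k V M Γ ρ τ χ γ hpol G hG0 hGτ
    fun L _ _ _ j β hβ i => forces hgen hdist hconj hroot hq hM hcl j β (hGR _ hβ) i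

end Pool.Agent.H857.NF
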