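import Mathlib
import Pool.Graph.R_seed8.W547.LD.Field

/-!
# The fields generated by Weil numbers are CM fields
-/

set_option autoImplicit false

namespace Pool.Agent.H857.NF

open NumberField Polynomial Module

section

variable {K : Type} [Field K] [NumberField K] {α : K} {q : ℕ}

/-- A number field generated by a Weil number of weight one, no conjugate of which is real. -/
theorem exists_conj (hgen : IntermediateField.adjoin ℚ {α} = ⊤) (hq : 0 < q)
    (h1 : ∀ φ : K →+* ℂ, ‖φ α‖ ^ 2 = q) (h2 : ∀ φ : K →+* ℂ, φ α ^ 2 ≠ q) :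
    ∃ _ : IsCMField K, α * IsCMField.complexConj K α = q := by
  classical
  have hne : Nonempty (K →+* ℂ) := inferInstance
  obtain ⟨φ₀⟩ := hne
  have hq' : (q : ℂ) ≠ 0 := by exact_mod_cast hq.ne'
  have hφ0 : ∀ φ : K →+* ℂ, φ α ≠ 0 := by
    intro φ h0
    have := h1 φ
    rw [h0, norm_zero, zero_pow two_ne_zero] at this
    exact hq.ne (by exact_mod_cast this)
  have hconj : ∀ φ : K →+* ℂ, (starRingEnd ℂ) (φ α) = φ (q / α) := by
    intro φ
    rw [map_div₀, map_natCast, eq_div_iff (hφ0 φ), mul_comm, Complex.mul_conj, Complex.normSq_eq_norm_sq,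
      h1 φ]
    simp
  have hα0 : α ≠ 0 := by
    rintro rfl
    exact hφ0 φ₀ (map_zero _)
  -- the power basis
  let B : PowerBasis ℚ (IntermediateField.adjoin ℚ {α}) :=
    IntermediateField.adjoin.powerBasis (Algebra.IsIntegral.isIntegral α)
  let e : IntermediateField.adjoin ℚ {α} ≃ₐ[ℚ] K :=
    (IntermediateField.equivOfEq hgen).trans IntermediateField.topEquiv
  let B' : PowerBasis ℚ K := B.map e
  have hB' : B'.gen = α := by
    change e B.gen = α
    rw [IntermediateField.adjoin.powerBasis_gen]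
    rfl
  have hroot : aeval ((q : K) / α) (minpoly ℚ B'.gen) = 0 := by
    apply φ₀.injective
    rw [map_zero, hB']
    have h3 : φ₀ (aeval ((q : K) / α) (minpoly ℚ α)) = aeval (φ₀ (q / α)) (minpoly ℚ α) :=
      (aeval_algHom_apply (RingHom.toRatAlgHom φ₀) _ _).symm
    rw [h3, ← hconj]
    have h4 : aeval ((starRingEnd ℂ) (φ₀ α)) (minpoly ℚ α) =
        (starRingEnd ℂ) (aeval (φ₀ α) (minpoly ℚ α)) :=
      aeval_algHom_apply (RingHom.toRatAlgHom (starRingEnd ℂ)) _ _
    rw [h4]
    have h5 : aeval (φ₀ α) (minpoly ℚ α) = φ₀ (aeval α (minpoly ℚ α)) :=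
      aeval_algHom_apply (RingHom.toRatAlgHom φ₀) _ _
    rw [h5, minpoly.aeval, map_zero, map_zero]
  let s : K →ₐ[ℚ] K := B'.lift ((q : K) / α) hroot
  have hs : s α = q / α := by
    have := B'.lift_gen ((q : K) / α) hroot
    rwa [hB'] at this
  have hext : ∀ {A : Type} [Field A] [Algebra ℚ A] (u v : K →ₐ[ℚ] A), u α = v α → u = v := by
    intro A _ _ u v h
    exact B'.algHom_ext (by rw [hB', h])
  have hss : s.comp s = AlgHom.id ℚ K := by
    apply hext
    change s (s α) = α
    rw [hs, map_div₀, hs, map_natCast]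
    have : (q : K) ≠ 0 := by exact_mod_cast hq.ne'
    field_simp
  let σ : K ≃ₐ[ℚ] K := AlgEquiv.ofAlgHom s s hss hss
  have hσ : ∀ φ : K →+* ℂ, ComplexEmbedding.IsConj φ σ := by
    intro φ
    refine RingHom.ext fun x => ?_
    change (starRingEnd ℂ) (φ x) = φ (s x)
    have h3 : (RingHom.toRatAlgHom ((starRingEnd ℂ).comp φ)) =
        (RingHom.toRatAlgHom φ).comp s := by
      apply hext
      change (starRingEnd ℂ) (φ α) = φ (s α)
      rw [hs, hconj]
    exact congrArg (fun u : K →ₐ[ℚ] ℂ => u x) h3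
  have htc : IsTotallyComplex K := ⟨fun v => by
    rw [← InfinitePlace.mk_embedding v, InfinitePlace.isComplex_mk_iff]
    intro hreal
    have h3 : (starRingEnd ℂ) (v.embedding α) = v.embedding α :=
      congrArg (fun u : K →+* ℂ => u α) hreal
    have h4 : v.embedding α * (starRingEnd ℂ) (v.embedding α) = q := by
      rw [Complex.mul_conj, Complex.normSq_eq_norm_sq, h1]
      simp
    rw [h3] at h4
    exact h2 v.embedding (by rw [sq, h4])⟩
  have hcm : IsCMField K := Pool.Agent.W547.LD.isCM_of_conj K hσ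
  refine ⟨hcm, ?_⟩
  apply φ₀.injective
  rw [map_mul, IsCMField.complexEmbedding_complexConj, Complex.mul_conj,
    Complex.normSq_eq_norm_sq, h1, map_natCast]
  simp

end

end Pool.Agent.H857.NF
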