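import Pool.Agent.H857.NF.SplitDefs

/-!
# The eigenvalues on the Tate twists
-/

set_option autoImplicit false

namespace Pool.Agent.H857.NF

open Module Polynomial

theorem eigenvaluesIn_smul {k : Type} [Field k] {M : Type} [AddCommGroup M] [Module k M]
    [CharZero k] {R : ℂ → Prop} {q : ℕ} (hq : 0 < q)
    (hR : ∀ (x : ℂ) (t : ℤ), R x → R (x * (q : ℂ) ^ t)) {φ : Module.End k M}
    (h : EigenvaluesIn R φ) (j : ℤ) : EigenvaluesIn R ((q : k) ^ j • φ) := by
  obtain ⟨F, hF, hφ, hroot⟩ := h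
  have hq0 : (q : ℚ) ≠ 0 := by exact_mod_cast hq.ne'
  have hqk : (q : k) ≠ 0 := by exact_mod_cast hq.ne'
  have hqc : (q : ℂ) ≠ 0 := by exact_mod_cast hq.ne'
  set c : ℚ := (q : ℚ) ^ (-j) with hc
  have hc0 : c ≠ 0 := zpow_ne_zero _ hq0
  refine ⟨F.comp (C c * X), ?_, ?_, ?_⟩
  · intro h0
    apply hF
    have h1 : F = (F.comp (C c * X)).comp (C c⁻¹ * X) := by
      rw [comp_assoc, mul_comp, C_comp, X_comp, ← mul_assoc, ← C_mul, mul_inv_cancel₀ hc0, C_1,
        one_mul, comp_X]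
    rw [h1, h0, zero_comp]
  · rw [Polynomial.map_comp, Polynomial.map_mul, map_C, map_X, aeval_comp, map_mul, aeval_C,
      aeval_X]
    have h1 : (algebraMap k (Module.End k M)) ((algebraMap ℚ k) c) * ((q : k) ^ j • φ) = φ := by
      rw [← Algebra.smul_def, smul_smul, hc, map_zpow₀, map_natCast, ← zpow_add₀ hqk,
        neg_add_cancel, zpow_zero, one_smul]
    rw [h1, hφ]
  · intro z hz
    rw [aeval_comp, map_mul, aeval_C, aeval_X] at hz
    have h1 := hR _ j (hroot _ hz)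
    have h2 : (algebraMap ℚ ℂ) c * z * (q : ℂ) ^ j = z := by
      rw [hc, map_zpow₀, map_natCast, mul_right_comm, ← zpow_add₀ hqc, neg_add_cancel, zpow_zero,
        one_mul]
    rwa [h2] at h1

end Pool.Agent.H857.NF
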