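import Pool.Agent.H857.NF.KunnethDefs

/-!
# The formula of Kunneth for the products of abelian varieties with smooth projective varieties
-/

set_option autoImplicit false
set_option linter.unusedSectionVars false

namespace Pool.Agent.H857.NF

open Module Polynomial Pool.Agent.Y137.MV Pool.Agent.Y137.SL

section

variable {k : Type} [Field k] {V : Type} [AddCommGroup V] [Module k V] {M : Type} [AddCommGroup M]
  [Module k M] {Γ : Type} [Group Γ]

theorem chi_ne_zero (χ : Γ →* k) (s : Γ) : χ s ≠ 0 := by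
  intro h
  have h1 : χ (s * s⁻¹) = 1 := by rw [mul_inv_cancel, map_one]
  rw [map_mul, h, zero_mul] at h1
  exact zero_ne_one h1

/-- The twist of a representation. -/
def twist (χ : Γ →* k) (j : ℤ) (τ : Representation k Γ M) : Representation k Γ M where
  toFun s := χ s ^ j • τ s
  map_one' := by rw [map_one, map_one, one_zpow, one_smul]
  map_mul' s t := by rw [map_mul, map_mul, mul_zpow, smul_mul_smul_comm]

theorem twist_apply (χ : Γ →* k) (j : ℤ) (τ : Representation k Γ M) (s : Γ) (w : M) :
    twist χ j τ s w = χ s ^ j • τ s w := rfl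

theorem act_def (χ : Γ →* k) (j : ℤ) (τ : Representation k Γ M) (s : Γ) (w : M) :
    act χ j τ s w = χ s ^ j • τ s w := rfl

theorem act_zero (χ : Γ →* k) (j : ℤ) (τ : Representation k Γ M) (s : Γ) :
    act χ j τ s 0 = 0 := by rw [act_def, map_zero, smul_zero]

theorem act_smul (χ : Γ →* k) (j : ℤ) (τ : Representation k Γ M) (s : Γ) (a : k) (w : M) :
    act χ j τ s (a • w) = a • act χ j τ s w := by rw [act_def, act_def, map_smul, smul_comm]

/-- The operation on the twist by a smaller power. -/
theorem act_sub (χ : Γ →* k) (j : ℤ) (m : ℕ) (τ : Representation k Γ M) (s : Γ) (w : M) :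
    χ s ^ m • act χ (j - m) τ s w = act χ j τ s w := by
  have hχ := chi_ne_zero χ s
  rw [act_def, act_def, smul_smul, ← zpow_natCast, ← zpow_add₀ hχ, add_sub_cancel]

/-- Alternating maps in too many variables vanish. -/
theorem alternating_eq_zero [FiniteDimensional k V] {ι : Type} [Fintype ι]
    (hι : finrank k V < Fintype.card ι) (g : V [⋀^ι]→ₗ[k] M) : g = 0 := by
  ext v
  refine g.map_linearDependent v fun h => ?_
  exact absurd h.fintype_card_le_finrank (by omega)

theorem wedge_zero {n m : ℕ} (B : Fin m → (Fin n → V) [⋀^Fin 2]→ₗ[k] k) :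
    wedge B (0 : M) = 0 := by
  ext v
  rw [wedge_apply, smul_zero]
  rfl

theorem wedge_add {n m : ℕ} (B : Fin m → (Fin n → V) [⋀^Fin 2]→ₗ[k] k) (w w' : M) :
    wedge B (w + w') = wedge B w + wedge B w' := by
  ext v
  rw [AlternatingMap.add_apply, wedge_apply, wedge_apply, wedge_apply, smul_add]

theorem wedge_smul {n m : ℕ} (B : Fin m → (Fin n → V) [⋀^Fin 2]→ₗ[k] k) (a : k) (w : M) :
    wedge B (a • w) = a • wedge B w := by
  ext v
  rw [AlternatingMap.smul_apply, wedge_apply, wedge_apply, smul_comm]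

theorem wedge_equivariant {ρ : Representation k Γ V} {χ : Γ →* k} {n m : ℕ}
    {B : Fin m → (Fin n → V) [⋀^Fin 2]→ₗ[k] k} {Δ : Subgroup Γ}
    (hB : ∀ l, IsTateFormOver ρ χ Δ (B l)) (w : M) {s : Γ} (hs : s ∈ Δ)
    (v : Fin m × Fin 2 → Fin n → V) :
    wedge B w (move ρ s v) = χ s ^ m • wedge B w v := by
  rw [wedge_apply, wedge_apply, smul_smul]
  congr 1
  rw [Finset.mul_sum]
  refine Finset.sum_congr rfl fun σ _ => ?_
  rw [mul_left_comm]
  congr 1
  have h1 : ∀ l, B l ![move ρ s v (σ (l, 0)), move ρ s v (σ (l, 1))] =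
      χ s * B l ![v (σ (l, 0)), v (σ (l, 1))] := by
    intro l
    rw [← hB l s hs]
    congr 1
    funext ε
    fin_cases ε <;> rfl
  simp only [h1, Finset.prod_mul_distrib, Finset.prod_const, Finset.card_univ, Fintype.card_fin]

theorem IsTateFormOver.mono {ρ : Representation k Γ V} {χ : Γ →* k} {Δ Δ' : Subgroup Γ} {n : ℕ}
    {B : (Fin n → V) [⋀^Fin 2]→ₗ[k] k} (h : IsTateFormOver ρ χ Δ B) (hle : Δ' ≤ Δ) :
    IsTateFormOver ρ χ Δ' B := fun s hs => h s (hle hs)

end

namespace Kunneth

variable {k : Type} [Field k] {V : Type} [AddCommGroup V] [Module k V] {n : ℕ} {H : ℤ → Type}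
  [∀ b, AddCommGroup (H b)] [∀ b, Module k (H b)] {j : ℤ}

theorem ext {c c' : Kunneth k V n H j} (h : ∀ m, c.1 m = c'.1 m) (h' : ∀ m, c.2 m = c'.2 m) :
    c = c' :=
  Prod.ext (funext h) (funext h')

theorem single_fst_same (m : ℕ) (g : (Fin n → V) [⋀^Fin m × Fin 2]→ₗ[k] H (2 * (j - m))) :
    (single m g : Kunneth k V n H j).1 m = g := by
  change (Pi.single m g : ∀ m : ℕ, (Fin n → V) [⋀^Fin m × Fin 2]→ₗ[k] H (2 * (j - m))) m = g
  rw [Pi.single_eq_same]

theorem single_fst_of_ne {m m' : ℕ} (hm : m' ≠ m)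
    (g : (Fin n → V) [⋀^Fin m × Fin 2]→ₗ[k] H (2 * (j - m))) :
    (single m g : Kunneth k V n H j).1 m' = 0 := by
  change (Pi.single m g : ∀ m : ℕ, (Fin n → V) [⋀^Fin m × Fin 2]→ₗ[k] H (2 * (j - m))) m' = 0
  rw [Pi.single_eq_of_ne hm]

theorem single_snd (m : ℕ) (g : (Fin n → V) [⋀^Fin m × Fin 2]→ₗ[k] H (2 * (j - m))) (m' : ℕ) :
    (single m g : Kunneth k V n H j).2 m' = 0 := rfl

theorem add_fst (c c' : Kunneth k V n H j) (m : ℕ) : (c + c').1 m = c.1 m + c'.1 m := rfl

theorem add_snd (c c' : Kunneth k V n H j) (m : ℕ) : (c + c').2 m = c.2 m + c'.2 m := rfl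

theorem smul_fst (a : k) (c : Kunneth k V n H j) (m : ℕ) : (a • c).1 m = a • c.1 m := rfl

theorem smul_snd (a : k) (c : Kunneth k V n H j) (m : ℕ) : (a • c).2 m = a • c.2 m := rfl

theorem zero_fst (m : ℕ) : (0 : Kunneth k V n H j).1 m = 0 := rfl

theorem zero_snd (m : ℕ) : (0 : Kunneth k V n H j).2 m = 0 := rfl

theorem single_zero (m : ℕ) :
    single m (0 : (Fin n → V) [⋀^Fin m × Fin 2]→ₗ[k] H (2 * (j - m))) =
      (0 : Kunneth k V n H j) := by
  refine ext (fun m' => ?_) fun m' => rfl
  by_cases h : m' = m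
  · subst h
    rw [single_fst_same, zero_fst]
  · rw [single_fst_of_ne h, zero_fst]

theorem single_add (m : ℕ) (g h : (Fin n → V) [⋀^Fin m × Fin 2]→ₗ[k] H (2 * (j - m))) :
    (single m (g + h) : Kunneth k V n H j) = single m g + single m h := by
  refine ext (fun m' => ?_) fun m' => ?_
  · rw [add_fst]
    by_cases h : m' = m
    · subst h
      rw [single_fst_same, single_fst_same, single_fst_same]
    · rw [single_fst_of_ne h, single_fst_of_ne h, single_fst_of_ne h, add_zero]
  · rw [add_snd, single_snd, single_snd, single_snd, add_zero]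

theorem single_smul (m : ℕ) (a : k) (g : (Fin n → V) [⋀^Fin m × Fin 2]→ₗ[k] H (2 * (j - m))) :
    (single m (a • g) : Kunneth k V n H j) = a • single m g := by
  refine ext (fun m' => ?_) fun m' => ?_
  · rw [smul_fst]
    by_cases h : m' = m
    · subst h
      rw [single_fst_same, single_fst_same]
    · rw [single_fst_of_ne h, single_fst_of_ne h, smul_zero]
  · rw [smul_snd, single_snd, single_snd, smul_zero]

theorem single_sum {T : Type} (t : Finset T) (m : ℕ)
    (g : T → (Fin n → V) [⋀^Fin m × Fin 2]→ₗ[k] H (2 * (j - m))) :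
    (single m (∑ i ∈ t, g i) : Kunneth k V n H j) = ∑ i ∈ t, single m (g i) := by
  classical
  induction t using Finset.induction_on with
  | empty => rw [Finset.sum_empty, Finset.sum_empty, single_zero]
  | insert i t hi ih => rw [Finset.sum_insert hi, Finset.sum_insert hi, single_add, ih]

theorem times_add {m : ℕ} (B : Fin m → (Fin n → V) [⋀^Fin 2]→ₗ[k] k) (w w' : H (2 * (j - m))) :
    (times B (w + w') : Kunneth k V n H j) = times B w + times B w' := by
  rw [times, wedge_add, single_add]
  rfl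

theorem times_smul {m : ℕ} (B : Fin m → (Fin n → V) [⋀^Fin 2]→ₗ[k] k) (a : k)
    (w : H (2 * (j - m))) :
    (times B (a • w) : Kunneth k V n H j) = a • times B w := by
  rw [times, wedge_smul, single_smul]
  rfl

theorem sum_fst {T : Type} (t : Finset T) (c : T → Kunneth k V n H j) (m : ℕ) :
    (∑ i ∈ t, c i).1 m = ∑ i ∈ t, (c i).1 m := by
  classical
  induction t using Finset.induction_on with
  | empty => rfl
  | insert i t hi ih => rw [Finset.sum_insert hi, Finset.sum_insert hi, add_fst, ih]

theorem sum_snd {T : Type} (t : Finset T) (c : T → Kunneth k V n H j) (m : ℕ) :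
    (∑ i ∈ t, c i).2 m = ∑ i ∈ t, (c i).2 m := by
  classical
  induction t using Finset.induction_on with
  | empty => rfl
  | insert i t hi ih => rw [Finset.sum_insert hi, Finset.sum_insert hi, add_snd, ih]

theorem fst_eq_zero [FiniteDimensional k V] (c : Kunneth k V n H j) {m : ℕ}
    (hm : n * finrank k V < 2 * m) : c.1 m = 0 := by
  refine alternating_eq_zero ?_ _
  rw [Fintype.card_prod, Fintype.card_fin, Fintype.card_fin, Module.finrank_pi_fintype]
  simp only [Finset.sum_const, Finset.card_univ, Fintype.card_fin, smul_eq_mul]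
  omega

/-- An element without odd components is the sum of its components. -/
theorem eq_sum [FiniteDimensional k V] (c : Kunneth k V n H j) (hc : ∀ m, c.2 m = 0) :
    c = ∑ m ∈ Finset.range (n * finrank k V + 1), single m (c.1 m) := by
  refine ext (fun m => ?_) fun m => ?_
  · rw [sum_fst]
    by_cases hm : m ∈ Finset.range (n * finrank k V + 1)
    · rw [Finset.sum_eq_single_of_mem m hm, single_fst_same]
      intro m' _ hne
      exact single_fst_of_ne (Ne.symm hne) _
    · rw [Finset.sum_eq_zero, fst_eq_zero]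
      · rw [Finset.mem_range] at hm
        omega
      · intro m' hm'
        refine single_fst_of_ne ?_ _
        rintro rfl
        exact hm hm'
  · rw [hc, sum_snd, Finset.sum_eq_zero]
    intro m' _
    rfl

/-- The image of a product. -/
theorem image_times {Γ : Type} [Group Γ] {ρ : Representation k Γ V} {χ : Γ →* k}
    {τ : ∀ b, Representation k Γ (H b)} {i : ℤ} {Δ : Subgroup Γ} {m : ℕ}
    {B : Fin m → (Fin n → V) [⋀^Fin 2]→ₗ[k] k} (hB : ∀ l, IsTateFormOver ρ χ Δ (B l)) {s : Γ}
    (hs : s ∈ Δ) {w w' : H (2 * (j - m))} (hw : act χ (i - m) (τ _) s w = w') :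
    Image ρ χ τ i s (times B w : Kunneth k V n H j) (times B w') := by
  refine ⟨fun m' v => ?_, fun m' v => ?_⟩
  · by_cases hmm : m' = m
    · subst hmm
      change (single m' (wedge B w') : Kunneth k V n H j).1 m' (move ρ s v) =
        act χ i (τ _) s ((single m' (wedge B w) : Kunneth k V n H j).1 m' v)
      rw [single_fst_same, single_fst_same, wedge_equivariant hB _ hs, ← hw, wedge_apply,
        wedge_apply, act_smul, ← act_sub χ i m', smul_comm]
    · change (single m (wedge B w') : Kunneth k V n H j).1 m' (move ρ s v) =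
        act χ i (τ _) s ((single m (wedge B w) : Kunneth k V n H j).1 m' v)
      rw [single_fst_of_ne hmm, single_fst_of_ne hmm, AlternatingMap.zero_apply,
        AlternatingMap.zero_apply, act_zero]
  · change (0 : (Fin n → V) [⋀^Fin (2 * m' + 1)]→ₗ[k] H (2 * j - (2 * m' + 1))) _ =
      act χ i (τ _) s ((0 : (Fin n → V) [⋀^Fin (2 * m' + 1)]→ₗ[k] H (2 * j - (2 * m' + 1))) v)
    rw [AlternatingMap.zero_apply, AlternatingMap.zero_apply, act_zero]

end Kunneth

end Pool.Agent.H857.NF
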