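import Pool.Agent.H857.NF.CycleDefs
import Pool.Agent.H857.NF.Kunneth
import Pool.Agent.H857.NF.Eigen

/-!
# Cycles on the products of abelian varieties over finitely generated fields with smooth projective
# varieties
-/

set_option autoImplicit false
set_option linter.unusedSectionVars false

namespace Pool.Agent.H857.NF

open Module Polynomial Pool.Agent.Y137.MV Pool.Agent.Y137.SL

section

variable {k : Type} [Field k] [CharZero k] {V : Type} [AddCommGroup V] [Module k V]
  [FiniteDimensional k V] {Γ : Type} [Group Γ] {ρ : Representation k Γ V} {χ : Γ →* k} {n : ℕ}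

theorem mem_algP_of_split {Y : CycleData k V Γ n} (hY : IsCycleData Y ρ χ)
    (hsplit : ∀ (b j : ℤ), ClassesSplit ρ χ (twist χ j (Y.τ b))) {j : ℤ}
    (h : ∀ m : ℕ, 2 * m ≤ n * finrank k V → Y.TateY χ (j - m)) : Y.TateP ρ χ j := by
  classical
  rintro c ⟨Δ, hΔ, hc⟩
  have ho : ∀ m, c.2 m = 0 := fun m =>
    (hsplit (2 * j - (2 * m + 1)) j).2 n m (c.2 m) ⟨Δ, hΔ, fun s hs v => (hc s hs).2 m v⟩
  have hmem : ∀ m : ℕ, Kunneth.single m (c.1 m) ∈ Y.algP j := by
    intro m
    by_cases hm : 2 * m ≤ n * finrank k V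
    · have h1 := (hsplit (2 * (j - m)) j).1 n m (c.1 m) ⟨Δ, hΔ, fun s hs v => (hc s hs).1 m v⟩
      clear hc
      generalize c.1 m = g at h1
      induction h1 using Submodule.span_induction with
      | mem g hg =>
        obtain ⟨B, w, hB, ⟨Δ', hΔ', hw⟩, hg⟩ := hg
        have h2 : g = wedge B w := by
          ext v
          rw [hg, wedge_apply]
        rw [h2]
        refine hY.products j m B hB w (h m hm w ⟨Δ', hΔ', fun s hs => ?_⟩)
        have h3 : χ s ^ m • act χ (j - m) (Y.τ (2 * (j - m))) s w = χ s ^ m • w := by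
          rw [act_sub]
          exact hw s hs
        exact smul_right_injective _ (pow_ne_zero m (chi_ne_zero χ s)) h3
      | zero =>
        rw [Kunneth.single_zero]
        exact Submodule.zero_mem _
      | add x y _ _ hx hy =>
        rw [Kunneth.single_add]
        exact Submodule.add_mem _ hx hy
      | smul a x _ hx =>
        rw [Kunneth.single_smul]
        exact Submodule.smul_mem _ a hx
    · rw [c.fst_eq_zero (not_le.1 hm), Kunneth.single_zero]
      exact Submodule.zero_mem _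
  rw [c.eq_sum ho]
  exact Submodule.sum_mem _ fun m _ => hmem m

theorem tateY_of_tateP {Y : CycleData k V Γ n} (hY : IsCycleData Y ρ χ) {j : ℤ}
    (h : Y.TateP ρ χ j) (m : ℕ) (hm : 2 * m ≤ n * finrank k V) : Y.TateY χ (j - m) := by
  classical
  rintro w ⟨Δ, hΔ, hw⟩
  obtain ⟨B, hB, hπ⟩ := hY.push m hm
  obtain ⟨π, h1, h2⟩ := hπ j
  choose Δ' hΔ' hB' using hB
  rw [← h2 w]
  refine h1 _ (h _ ?_)
  have hfin : (⨅ l, Δ' l).FiniteIndex := Subgroup.finiteIndex_iInf hΔ'
  refine ⟨Δ ⊓ ⨅ l, Δ' l, inferInstance, fun s hs => ?_⟩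
  exact Kunneth.image_times (Δ := ⨅ l, Δ' l)
    (fun l s hs v => hB' l s ((Subgroup.mem_iInf.1 hs) l) v) hs.2 (hw s hs.1)

end

/-- **The Tate conjecture for `A ^ n × Y` is equivalent to the one for `Y`.** -/
theorem tateReduces {R : ℂ → Prop} {q : ℕ} (hq : 0 < q) {I : Type} [Fintype I] {f : I → ℤ[X]}
    (hR : ∀ (x : ℂ) (t : ℤ), R x → R (x * (q : ℂ) ^ t)) (h : TateClassesSplit R q f) :
    TateReduces R q f := by
  intro k _ _ V _ _ _ Γ _ ρ χ γ hA n Y hY hE j
  refine ⟨fun hP m hm => tateY_of_tateP hY hP m hm, fun hN => mem_algP_of_split hY ?_ hN⟩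
  intro b j
  refine h k V (Y.H b) Γ ρ (twist χ j (Y.τ b)) χ γ hA ?_
  have h1 : twist χ j (Y.τ b) γ = (q : k) ^ j • Y.τ b γ := by
    change χ γ ^ j • Y.τ b γ = _
    rw [hA.multiplier]
  rw [h1]
  exact eigenvaluesIn_smul hq hR (hE b) j

end Pool.Agent.H857.NF
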