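import Pool.Agent.H857.NF.KunnethDefs

/-!
# Cycles on the products of abelian varieties over finitely generated fields with smooth projective
# varieties: definitions
-/

set_option autoImplicit false
set_option linter.unusedSectionVars false

namespace Pool.Agent.H857.NF

open Module Polynomial Pool.Agent.Y137.MV Pool.Agent.Y137.SL

/-- The `ℓ`-adic cohomology of a smooth projective variety `Y` over a finitely generated field with
Galois group `Γ`, and the classes of the algebraic cycles on `Y` and on `A ^ n × Y` over the algebraic
closure. Here `V` is the Tate module of the abelian variety `A`, and the cohomology of `A ^ n × Y` is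
given by the formula of Kunneth (`Kunneth`). -/
structure CycleData (k : Type) [Field k] (V : Type) [AddCommGroup V] [Module k V] (Γ : Type)
    [Group Γ] (n : ℕ) where
  /-- the group `H^b(Y)` -/
  H : ℤ → Type
  [group : ∀ b, AddCommGroup (H b)]
  [module : ∀ b, Module k (H b)]
  [finite : ∀ b, FiniteDimensional k (H b)]
  /-- the Galois representation on `H^b(Y)` -/
  τ : ∀ b, Representation k Γ (H b)
  /-- the span of the classes of the cycles of codimension `i` on `Y` in `H^(2 i)(Y)(i)` -/
  algY : ∀ i : ℤ, Submodule k (H (2 * i))
  /-- the span of the classes of the cycles of codimension `j` on `A ^ n × Y` in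
  `H^(2 j)(A ^ n × Y)(j)` -/
  algP : ∀ j : ℤ, Submodule k (Kunneth k V n H j)

attribute [instance] CycleData.group CycleData.module CycleData.finite

namespace CycleData

variable {k : Type} [Field k] {V : Type} [AddCommGroup V] [Module k V] {Γ : Type} [Group Γ] {n : ℕ}
  (Y : CycleData k V Γ n) (ρ : Representation k Γ V) (χ : Γ →* k)

/-- The element `w` of `H^(2 i)(Y)(i)` is a Tate class: it is fixed by a subgroup of finite index. -/
def IsTateY (i : ℤ) (w : Y.H (2 * i)) : Prop :=
  ∃ Δ : Subgroup Γ, Δ.FiniteIndex ∧ ∀ s ∈ Δ, act χ i (Y.τ (2 * i)) s w = w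

/-- The element `c` of `H^(2 j)(A ^ n × Y)(j)` is a Tate class: it is fixed by a subgroup of finite
index. -/
def IsTateP (j : ℤ) (c : Kunneth k V n Y.H j) : Prop :=
  ∃ Δ : Subgroup Γ, Δ.FiniteIndex ∧ ∀ s ∈ Δ, Kunneth.Image ρ χ Y.τ j s c c

/-- **The Tate conjecture** for `Y` in codimension `i`: the Tate classes are linear combinations of
classes of cycles. -/
def TateY (i : ℤ) : Prop := ∀ w, Y.IsTateY χ i w → w ∈ Y.algY i

/-- **The Tate conjecture** for `A ^ n × Y` in codimension `j`. -/
def TateP (j : ℤ) : Prop := ∀ c, Y.IsTateP ρ χ j c → c ∈ Y.algP j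

end CycleData

section

variable {k : Type} [Field k] {V : Type} [AddCommGroup V] [Module k V] {Γ : Type} [Group Γ] {n : ℕ}
  (Y : CycleData k V Γ n) (ρ : Representation k Γ V) (χ : Γ →* k)

/-- The products of `m` Tate classes of degree two on `A ^ n` with classes of cycles on `Y` are linear
combinations of classes of cycles. -/
def CycleData.Products : Prop :=
  ∀ (j : ℤ) (m : ℕ) (B : Fin m → TwoForms k V n), (∀ l, IsTateForm ρ χ (B l)) →
    ∀ w ∈ Y.algY (j - m), Kunneth.times B w ∈ Y.algP j

/-- The multiplication with the product of the forms `B l` has a left inverse which respects the classes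
of cycles. -/
def CycleData.Push {m : ℕ} (B : Fin m → TwoForms k V n) : Prop :=
  ∀ j : ℤ, ∃ π : Kunneth k V n Y.H j →ₗ[k] Y.H (2 * (j - m)),
    (∀ c ∈ Y.algP j, π c ∈ Y.algY (j - m)) ∧ ∀ w, π (Kunneth.times B w) = w

/-- The formal properties of the classes of the cycles. The products of `m` Tate classes of degree two
on `A ^ n` (they are linear combinations of classes of divisors, by Faltings and Zarhin) with classes
of cycles on `Y` are linear combinations of classes of cycles. For `m ≤ dim A ^ n` there are `m` such
classes on `A ^ n` (for instance all equal to the class `C` of an ample divisor) such that the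
multiplication with their product has a left inverse which respects the classes of cycles (the
intersection with a multiple of the complementary power of `C`, and the push-forward to `Y`). -/
structure IsCycleData : Prop where
  products : Y.Products ρ χ
  push : ∀ m : ℕ, 2 * m ≤ n * finrank k V → ∃ B : Fin m → TwoForms k V n,
    (∀ l, IsTateForm ρ χ (B l)) ∧ Y.Push B

end

/-- `TateReduces R q f`: let `A` be an abelian variety over a finitely generated field with Galois
group `Γ`, with a Frobenius element `γ` at one place as in `IsTateModule`, and let `Y` be any smooth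
projective variety over this field such that the eigenvalues of this one element on the cohomology
groups of `Y` have the property `R`. Then, for all `n` and `j`, the Tate conjecture holds for
`A ^ n × Y` in codimension `j` if and only if it holds for `Y` in the codimensions `j - m`,
`0 ≤ m ≤ dim A ^ n`. -/
def TateReduces (R : ℂ → Prop) (q : ℕ) {I : Type} [Fintype I] (f : I → ℤ[X]) : Prop :=
  ∀ (k : Type) [Field k] [CharZero k] (V : Type) [AddCommGroup V] [Module k V]
    [FiniteDimensional k V] (Γ : Type) [Group Γ] (ρ : Representation k Γ V) (χ : Γ →* k) (γ : Γ),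
    IsTateModule ρ χ γ q f → ∀ (n : ℕ) (Y : CycleData k V Γ n), IsCycleData Y ρ χ →
      (∀ b, EigenvaluesIn R (Y.τ b γ)) →
      ∀ j : ℤ, Y.TateP ρ χ j ↔ ∀ m : ℕ, 2 * m ≤ n * finrank k V → Y.TateY χ (j - m)

end Pool.Agent.H857.NF
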