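import Pool.Agent.H857.SX.Defs

/-!
# The exceptional set with the families of polynomials with multiple roots: definitions
-/

set_option autoImplicit false

namespace Pool.Agent.H857.NF

open Polynomial Pool.Agent.H857.SX

/-- The product of the polynomials `f i` has no multiple factors: the `f i` have simple roots, and `f i`,
`f j` have no common roots for `i ≠ j`. -/
def SimpleRoots {I : Type} [Fintype I] (f : I → ℤ[X]) : Prop :=
  Squarefree (∏ i, (f i).map (Int.castRingHom ℚ))

/-- The exceptional families: those which are not independent of the numbers `ρ k`, or have multiple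
roots. -/
def exceptional {I : Type} [Fintype I] (g : I → ℕ) (p : ℕ) [Fact p.Prime] (a : ℕ) {κ : Type}
    [Fintype κ] (ρ : κ → ℂ) : Set (I → ℤ[X]) :=
  {f ∈ families g p a | ¬ (Independent f (p ^ a) ρ ∧ SimpleRoots f)}

end Pool.Agent.H857.NF
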