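import Pool.Agent.H857.NF.SplitDefs

/-!
# The formula of Kunneth for the products of abelian varieties with smooth projective varieties:
# definitions
-/

set_option autoImplicit false
set_option linter.unusedSectionVars false

namespace Pool.Agent.H857.NF

open Module Polynomial Pool.Agent.Y137.MV Pool.Agent.Y137.SL

/-- The alternating forms of two variables on `V ^ n`. -/
abbrev TwoForms (k : Type) [Field k] (V : Type) [AddCommGroup V] [Module k V] (n : ℕ) : Type :=
  (Fin n → V) [⋀^Fin 2]→ₗ[k] k

section

variable {k : Type} [Field k] {V : Type} [AddCommGroup V] [Module k V]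

theorem update_pair {n m : ℕ} [DecidableEq (Fin m × Fin 2)] (v : Fin m × Fin 2 → Fin n → V)
    (l₀ : Fin m) (ε : Fin 2) (z : Fin n → V) :
    ![Function.update v (l₀, ε) z (l₀, 0), Function.update v (l₀, ε) z (l₀, 1)] =
      Function.update ![v (l₀, 0), v (l₀, 1)] ε z := by
  funext i
  fin_cases ε <;> fin_cases i <;> simp [Function.update]

theorem update_pair_ne {n m : ℕ} [DecidableEq (Fin m × Fin 2)] (v : Fin m × Fin 2 → Fin n → V)
    (l₀ : Fin m) (ε : Fin 2) (z : Fin n → V) (l : Fin m) (hl : l ≠ l₀) :
    ![Function.update v (l₀, ε) z (l, 0), Function.update v (l₀, ε) z (l, 1)] =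
      ![v (l, 0), v (l, 1)] := by
  rw [Function.update_of_ne, Function.update_of_ne]
  · intro h
    exact hl (congrArg Prod.fst h)
  · intro h
    exact hl (congrArg Prod.fst h)

/-- The multilinear map `v ↦ ∏ l, B l (v (l, 0), v (l, 1))`. -/
def prodForm {n m : ℕ} (B : Fin m → TwoForms k V n) :
    MultilinearMap k (fun _ : Fin m × Fin 2 => Fin n → V) k where
  toFun v := ∏ l, B l ![v (l, 0), v (l, 1)]
  map_update_add' := by
    rintro _ v ⟨l₀, ε⟩ x y
    simp only [← Finset.mul_prod_erase _ _ (Finset.mem_univ l₀), update_pair,
      AlternatingMap.map_update_add, add_mul]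
    congr 1 <;> congr 1 <;> refine Finset.prod_congr rfl fun l hl => ?_ <;>
      rw [update_pair_ne _ _ _ _ _ (Finset.ne_of_mem_erase hl),
        update_pair_ne _ _ _ _ _ (Finset.ne_of_mem_erase hl)]
  map_update_smul' := by
    rintro _ v ⟨l₀, ε⟩ c x
    simp only [← Finset.mul_prod_erase _ _ (Finset.mem_univ l₀), update_pair,
      AlternatingMap.map_update_smul, smul_eq_mul, mul_assoc]
    congr 2
    refine Finset.prod_congr rfl fun l hl => ?_
    rw [update_pair_ne _ _ _ _ _ (Finset.ne_of_mem_erase hl),
        update_pair_ne _ _ _ _ _ (Finset.ne_of_mem_erase hl)]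

/-- The alternating map `B 0 ∧ ... ∧ B (m - 1) ⊗ w` on `V ^ n`. -/
def wedge {M : Type} [AddCommGroup M] [Module k M] {n m : ℕ}
    (B : Fin m → TwoForms k V n) (w : M) : (Fin n → V) [⋀^Fin m × Fin 2]→ₗ[k] M :=
  (LinearMap.toSpanSingleton k M w).compAlternatingMap
    (MultilinearMap.alternatization (prodForm B))

theorem wedge_apply {M : Type} [AddCommGroup M] [Module k M] {n m : ℕ}
    (B : Fin m → TwoForms k V n) (w : M) (v : Fin m × Fin 2 → Fin n → V) :
    wedge B w v = (∑ σ : Equiv.Perm (Fin m × Fin 2), ((Equiv.Perm.sign σ : ℤ) : k) *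
      ∏ l, B l ![v (σ (l, 0)), v (σ (l, 1))]) • w := by
  rw [wedge, LinearMap.compAlternatingMap_apply, LinearMap.toSpanSingleton_apply,
    MultilinearMap.alternatization_apply]
  congr 1
  refine Finset.sum_congr rfl fun σ _ => ?_
  rw [Units.smul_def, zsmul_eq_mul]
  rfl

end

section

variable {k : Type} [Field k] {V : Type} [AddCommGroup V] [Module k V] {Γ : Type} [Group Γ]

/-- The operation of the element `s` of the Galois group on the families of elements of `V ^ n`. -/
def move (ρ : Representation k Γ V) (s : Γ) {n : ℕ} {ι : Type} (v : ι → Fin n → V) :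
    ι → Fin n → V :=
  fun l i => ρ s (v l i)

/-- The operation of the element `s` of the Galois group on the representation `τ` twisted by the
power `i` of the character `χ`. -/
def act (χ : Γ →* k) (i : ℤ) (τ : Representation k Γ V) (s : Γ) (w : V) : V := χ s ^ i • τ s w

/-- The form `B` on `V ^ n` is multiplied by the character `χ` under the operation of the elements of
`Δ`. -/
def IsTateFormOver (ρ : Representation k Γ V) (χ : Γ →* k) (Δ : Subgroup Γ) {n : ℕ}
    (B : TwoForms k V n) : Prop :=
  ∀ s ∈ Δ, ∀ v, B (move ρ s v) = χ s * B v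

end

section

variable (k : Type) [Field k] (V : Type) [AddCommGroup V] [Module k V] (n : ℕ) (H : ℤ → Type)
  [∀ b, AddCommGroup (H b)] [∀ b, Module k (H b)] (j : ℤ)

/-- The families, over `m`, of alternating maps of `2 m` variables from `V ^ n` to
`H (2 (j - m))`. -/
def EvenPart : Type := ∀ m : ℕ, (Fin n → V) [⋀^Fin m × Fin 2]→ₗ[k] H (2 * (j - m))

/-- The families, over `m`, of alternating maps of `2 m + 1` variables from `V ^ n` to
`H (2 j - (2 m + 1))`. -/
def OddPart : Type := ∀ m : ℕ, (Fin n → V) [⋀^Fin (2 * m + 1)]→ₗ[k] H (2 * j - (2 * m + 1))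

instance : AddCommGroup (EvenPart k V n H j) := Pi.addCommGroup

instance : Module k (EvenPart k V n H j) := Pi.module _ _ _

instance : AddCommGroup (OddPart k V n H j) := Pi.addCommGroup

instance : Module k (OddPart k V n H j) := Pi.module _ _ _

/-- The formula of Kunneth: the cohomology of `A ^ n × Y` in degree `2 j`, where `H b` is the
cohomology of `Y` in degree `b` and `V` is the Tate module of `A`, so that the cohomology of `A ^ n`
in degree `a` is the space of the alternating forms of `a` variables on `V ^ n`: it is the sum over `m`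
of the spaces of the alternating maps of `2 m` variables from `V ^ n` to `H (2 (j - m))` and of the
alternating maps of `2 m + 1` variables to `H (2 j - (2 m + 1))` (they are zero if the number of the
variables is larger than the dimension of `V ^ n`). -/
def Kunneth : Type := EvenPart k V n H j × OddPart k V n H j

instance : AddCommGroup (Kunneth k V n H j) := Prod.instAddCommGroup

instance : Module k (Kunneth k V n H j) := Prod.instModule

end

namespace Kunneth

variable {k : Type} [Field k] {V : Type} [AddCommGroup V] [Module k V] {n : ℕ} {H : ℤ → Type}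
  [∀ b, AddCommGroup (H b)] [∀ b, Module k (H b)] {j : ℤ}

/-- The component of `c` which is an alternating map of `2 m` variables. -/
def even (c : Kunneth k V n H j) (m : ℕ) (v : Fin m × Fin 2 → Fin n → V) : H (2 * (j - m)) :=
  c.1 m v

/-- The component of `c` which is an alternating map of `2 m + 1` variables. -/
def odd (c : Kunneth k V n H j) (m : ℕ) (v : Fin (2 * m + 1) → Fin n → V) :
    H (2 * j - (2 * m + 1)) :=
  c.2 m v

/-- The element of the cohomology of `A ^ n × Y` with one component, an alternating map of `2 m`
variables. -/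
def single (m : ℕ) (g : (Fin n → V) [⋀^Fin m × Fin 2]→ₗ[k] H (2 * (j - m))) :
    Kunneth k V n H j :=
  (Pi.single m g, 0)

/-- The product of `m` forms of degree two on `V ^ n` with an element of the cohomology of `Y`, as an
element of the cohomology of `A ^ n × Y`. -/
def times {m : ℕ} (B : Fin m → TwoForms k V n) (w : H (2 * (j - m))) :
    Kunneth k V n H j :=
  single m (wedge B w)

/-- The element `c'` is the image of `c` under the operation of the element `s` of the Galois group
with the twist by the power `i` of the character `χ`; here `ρ` and `τ` are the operations on `V` and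
on the cohomology of `Y`. -/
def Image {Γ : Type} [Group Γ] (ρ : Representation k Γ V) (χ : Γ →* k)
    (τ : ∀ b, Representation k Γ (H b)) (i : ℤ) (s : Γ) (c c' : Kunneth k V n H j) : Prop :=
  (∀ m v, c'.even m (move ρ s v) = act χ i (τ _) s (c.even m v)) ∧
    ∀ m v, c'.odd m (move ρ s v) = act χ i (τ _) s (c.odd m v)

end Kunneth

end Pool.Agent.H857.NF
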