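import Pool.Agent.H857.NF.Sq
import Pool.Agent.H857.PA.Main
import Pool.Agent.H857.SX.Rate

/-!
# The number of the families of Weil polynomials with multiple roots
-/

set_option autoImplicit false
set_option linter.unusedSectionVars false

namespace Pool.Agent.H857.NF

open Polynomial Pool.Agent.W521.Frob Pool.Agent.W521.Density Pool.Agent.W521.Count
  Pool.Agent.W521.Descent Pool.Agent.H857.PA Pool.Agent.H857.PB Pool.Agent.X297.UB

section

variable {I : Type} [Fintype I] [DecidableEq I] (g : I → ℕ)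

/-- The number of the points of the box in a set which has few points in the fibres over the other
components. -/
theorem count_of_fibre (i : I) (Bad : ℕ → (∀ i, Fin (g i) → ℤ) → Prop) {C : ℝ} (hC : 0 < C)
    (h : ∀ q : ℕ, 0 < q → ∀ (x : ∀ i, Fin (g i) → ℤ) (T : Set (Fin (g i) → ℤ)),
      (∀ y ∈ T, wp q (g i) y ∈ weilPolys q (g i) ∧ Bad q (Function.update x i y)) →
      (T.ncard : ℝ) ≤ C * Real.sqrt q ^ expo (g i)) :
    ∃ C : ℝ, 0 < C ∧ ∀ q : ℕ, 0 < q →
      ({x : ∀ i, Fin (g i) → ℤ | (∀ i, wp q (g i) (x i) ∈ weilPolys q (g i)) ∧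
        Bad q x}.ncard : ℝ) ≤
        C * (Real.sqrt q ^ expo (g i) * ∏ j ∈ Finset.univ.erase i, Real.sqrt q ^ tot (g j)) := by
  classical
  set B : ℝ := ∏ j : {j // j ≠ i}, (3 * (4 : ℝ) ^ g j) ^ g j with hB
  have hB0 : 0 < B := Finset.prod_pos fun j _ => by positivity
  refine ⟨C * B, by positivity, fun q hq => ?_⟩
  set S : Finset (∀ i, Fin (g i) → ℤ) :=
    (Fintype.piFinset fun i => Fintype.piFinset (box q (g i))).filter fun x =>
      (∀ i, wp q (g i) (x i) ∈ weilPolys q (g i)) ∧ Bad q x with hS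
  have hset : {x : ∀ i, Fin (g i) → ℤ | (∀ i, wp q (g i) (x i) ∈ weilPolys q (g i)) ∧
      Bad q x} = (S : Set (∀ i, Fin (g i) → ℤ)) := by
    ext x
    rw [hS, Finset.coe_filter, Set.mem_ofPred_eq, Set.mem_ofPred_eq]
    constructor
    · rintro ⟨h1, h2⟩
      exact ⟨Fintype.mem_piFinset.2 fun i => mem_box hq.ne' (h1 i), h1, h2⟩
    · rintro ⟨_, h1⟩
      exact h1
  rw [hset, Set.ncard_coe_finset]
  set res : (∀ i, Fin (g i) → ℤ) → (∀ j : {j // j ≠ i}, Fin (g j) → ℤ) := fun x j => x j with hres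
  set N : ℕ := ⌊C * Real.sqrt q ^ expo (g i)⌋₊ with hN
  have hs : (1 : ℝ) ≤ Real.sqrt q := by
    rw [Real.one_le_sqrt]
    exact_mod_cast hq
  have h1 : S.card ≤ N * (S.image res).card := by
    refine Finset.card_le_mul_card_image S N fun y hy => ?_
    obtain ⟨x0, hx0, rfl⟩ := Finset.mem_image.1 hy
    set F := S.filter fun x => res x = res x0 with hF
    have hupd : ∀ x ∈ F, x = Function.update x0 i (x i) := by
      intro x hx
      have h2 : res x = res x0 := (Finset.mem_filter.1 hx).2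
      funext j
      by_cases hj : j = i
      · subst hj
        rw [Function.update_self]
      · rw [Function.update_of_ne hj]
        exact congrFun h2 ⟨j, hj⟩
    have hinj : Set.InjOn (fun x : ∀ i, Fin (g i) → ℤ => x i) F := by
      intro x hx x' hx' hxx'
      rw [hupd x hx, hupd x' hx']
      simp only at hxx'
      rw [hxx']
    have h3 : F.card = ((fun x : ∀ i, Fin (g i) → ℤ => x i) '' (F : Set _)).ncard := by
      rw [hinj.ncard_image, Set.ncard_coe_finset]
    rw [h3]
    refine Nat.le_floor ?_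
    refine h q hq x0 _ ?_
    rintro _ ⟨x, hx, rfl⟩
    have h4 := hupd x hx
    have h5 := (Finset.mem_filter.1 (Finset.mem_filter.1 hx).1).2
    refine ⟨h5.1 i, ?_⟩
    simp only
    rw [← h4]
    exact h5.2
  have h2 : ((S.image res).card : ℝ) ≤ B * ∏ j ∈ Finset.univ.erase i, Real.sqrt q ^ tot (g j) := by
    have h3 : S.image res ⊆ Fintype.piFinset fun j : {j // j ≠ i} =>
        Fintype.piFinset (box q (g j)) := by
      intro y hy
      obtain ⟨x, hx, rfl⟩ := Finset.mem_image.1 hy
      rw [Fintype.mem_piFinset]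
      intro j
      exact Fintype.mem_piFinset.1 (Finset.mem_filter.1 hx).1 j
    have h4 : ((S.image res).card : ℝ) ≤
        ∏ j : {j // j ≠ i}, ((3 * (4 : ℝ) ^ g j) ^ g j * Real.sqrt q ^ tot (g j)) := by
      calc ((S.image res).card : ℝ) ≤ ((Fintype.piFinset fun j : {j // j ≠ i} =>
            Fintype.piFinset (box q (g j))).card : ℝ) := by
            exact_mod_cast Finset.card_le_card h3
        _ = ∏ j : {j // j ≠ i}, ((Fintype.piFinset (box q (g j))).card : ℝ) := by
            rw [Fintype.card_piFinset, Nat.cast_prod]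
        _ ≤ _ := Finset.prod_le_prod (fun j _ => Nat.cast_nonneg _) fun j _ => card_all_box hq
    refine h4.trans (le_of_eq ?_)
    rw [Finset.prod_mul_distrib, hB]
    congr 1
    rw [← Finset.prod_subtype (Finset.univ.erase i) (fun j => by simp)
      (fun j => Real.sqrt q ^ tot (g j))]
  have h3 : (N : ℝ) ≤ C * Real.sqrt q ^ expo (g i) := Nat.floor_le (by positivity)
  calc (S.card : ℝ) ≤ N * (S.image res).card := by exact_mod_cast h1
    _ ≤ (C * Real.sqrt q ^ expo (g i)) *
        (B * ∏ j ∈ Finset.univ.erase i, Real.sqrt q ^ tot (g j)) := by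
        exact mul_le_mul h3 h2 (Nat.cast_nonneg _) (by positivity)
    _ = _ := by ring

/-- A common root of `h i` and its derivative, or of `h i` and `h j`. -/
def BadAt (i : I) (x : ∀ i, Fin (g i) → ℤ) : Prop :=
  ∃ θ : ℂ, aeval θ (mkPoly (g i) (x i)) = 0 ∧ (aeval θ (derivative (mkPoly (g i) (x i))) = 0 ∨
    ∃ j, j ≠ i ∧ aeval θ (mkPoly (g j) (x j)) = 0)

lemma aeval_mkPoly {n : ℕ} (y : Fin (n + 1) → ℤ) (θ : ℂ) :
    aeval θ (mkPoly (n + 1) y) = y 0 + aeval θ (mkPoly (n + 1) (Function.update y 0 0)) := by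
  have h1 : mkPoly (n + 1) y = C (y 0) + mkPoly (n + 1) (Function.update y 0 0) := by
    unfold mkPoly
    rw [add_comm (C (y 0)), Fin.sum_univ_succ, Fin.sum_univ_succ]
    simp only [Function.update_self, ne_eq, Fin.succ_ne_zero, not_false_eq_true,
      Function.update_of_ne]
    simp
    ring
  conv_lhs => rw [h1]
  rw [map_add, aeval_C]
  simp

lemma derivative_mkPoly {n : ℕ} (y : Fin (n + 1) → ℤ) :
    derivative (mkPoly (n + 1) y) = derivative (mkPoly (n + 1) (Function.update y 0 0)) := by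
  have h1 : mkPoly (n + 1) y = C (y 0) + mkPoly (n + 1) (Function.update y 0 0) := by
    unfold mkPoly
    rw [add_comm (C (y 0)), Fin.sum_univ_succ, Fin.sum_univ_succ]
    simp only [Function.update_self, ne_eq, Fin.succ_ne_zero, not_false_eq_true,
      Function.update_of_ne]
    simp
    ring
  conv_lhs => rw [h1]
  rw [derivative_add, derivative_C, zero_add]

/-- In a fibre of the projection which forgets the constant term there are few bad points. -/
theorem fibre_bad {n : ℕ} {J : Type} [Fintype J] (P : J → ℤ[X]) (hP : ∀ j, (P j).Monic) (q : ℕ)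
    (hq : 0 < q) (T : Set (Fin (n + 1) → ℤ))
    (hT : ∀ y ∈ T, wp q (n + 1) y ∈ weilPolys q (n + 1) ∧ ∃ θ : ℂ,
      aeval θ (mkPoly (n + 1) y) = 0 ∧ (aeval θ (derivative (mkPoly (n + 1) y)) = 0 ∨
        ∃ j, aeval θ (P j) = 0)) :
    (T.ncard : ℝ) ≤ ((n + 1 + ∑ j, (P j).natDegree : ℕ) * (3 * (4 : ℝ) ^ (n + 1)) ^ (n + 1)) *
      Real.sqrt q ^ expo (n + 1) := by
  classical
  have hs : (1 : ℝ) ≤ Real.sqrt q := by
    rw [Real.one_le_sqrt]
    exact_mod_cast hq
  have hTsub : T ⊆ ((Fintype.piFinset (box q (n + 1)) : Finset (Fin (n + 1) → ℤ)) : Set _) :=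
    fun y hy => mem_box hq.ne' (hT y hy).1
  have hTfin : T.Finite := (Finset.finite_toSet _).subset hTsub
  set S : Finset (Fin (n + 1) → ℤ) := hTfin.toFinset with hS
  have hcard : T.ncard = S.card := Set.ncard_eq_toFinset_card _ hTfin
  have hSsub : S ⊆ Fintype.piFinset (box q (n + 1)) := fun y hy =>
    Finset.mem_coe.1 (hTsub ((Set.Finite.mem_toFinset _).1 hy))
  set N : ℕ := n + 1 + ∑ j, (P j).natDegree with hN
  have h1 : S.card ≤ N * DD (box q (n + 1)) {0} := by
    refine card_le_fibre hSsub fun x hx => ?_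
    -- the values of the constant term
    set H := mkPoly (n + 1) (Function.update x 0 0) with hH
    set Θ : Finset ℂ := ((derivative H).aroots ℂ).toFinset ∪
      Finset.univ.biUnion fun j => ((P j).aroots ℂ).toFinset with hΘ
    have hΘcard : Θ.card ≤ N := by
      refine (Finset.card_union_le _ _).trans (Nat.add_le_add ?_ ?_)
      · refine (Multiset.toFinset_card_le _).trans ((card_roots' _).trans ?_)
        refine natDegree_map_le.trans ((natDegree_derivative_le H).trans ?_)
        rw [hH, mkPoly_natDegree]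
        omega
      · refine Finset.card_biUnion_le.trans (Finset.sum_le_sum fun j _ => ?_)
        refine (Multiset.toFinset_card_le _).trans ((card_roots' _).trans natDegree_map_le)
    refine le_trans ?_ hΘcard
    refine le_trans (Finset.card_le_card_of_injOn (t := Θ.image fun θ => -aeval θ H)
      (fun y => (y 0 : ℂ)) ?_ ?_) Finset.card_image_le
    · intro y hy
      have hy' := Finset.mem_filter.1 hy
      have hyx : Function.update y 0 0 = Function.update x 0 0 := by
        funext k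
        by_cases hk : k = 0
        · subst hk
          rw [Function.update_self, Function.update_self]
        · rw [Function.update_of_ne hk, Function.update_of_ne hk]
          exact hy'.2 k (by simpa using hk)
      obtain ⟨-, θ, hθ, hbad⟩ := hT y ((Set.Finite.mem_toFinset _).1 hy'.1)
      rw [aeval_mkPoly, hyx, ← hH] at hθ
      rw [derivative_mkPoly, hyx, ← hH] at hbad
      rw [Finset.mem_coe, Finset.mem_image]
      refine ⟨θ, ?_, ?_⟩
      · rw [hΘ, Finset.mem_union]
        rcases hbad with h | ⟨j, hj⟩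
        · left
          rw [Multiset.mem_toFinset, mem_aroots]
          refine ⟨?_, h⟩
          intro h0
          have h2 : H.natDegree = 0 := derivative_eq_zero.1 h0
          rw [hH, mkPoly_natDegree] at h2
          omega
        · right
          rw [Finset.mem_biUnion]
          refine ⟨j, Finset.mem_univ _, ?_⟩
          rw [Multiset.mem_toFinset, mem_aroots]
          exact ⟨(hP j).ne_zero, hj⟩
      · simp only
        linear_combination -hθ
    · intro y hy y' hy' hyy
      have h2 := (Finset.mem_filter.1 (Finset.mem_coe.1 hy)).2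
      have h3 := (Finset.mem_filter.1 (Finset.mem_coe.1 hy')).2
      funext k
      by_cases hk : k = 0
      · subst hk
        have h4 : (y 0 : ℂ) = (y' 0 : ℂ) := hyy
        exact_mod_cast h4
      · rw [h2 k (by simpa using hk), h3 k (by simpa using hk)]
  have hX : ∀ k : Fin (n + 1), ((box q (n + 1) k).card : ℝ) ≤
      (3 * 4 ^ (n + 1)) * Real.sqrt q ^ (n + 1 - (k : ℕ)) := fun k => card_box hq k
  have h4 : (1 : ℝ) ≤ 3 * 4 ^ (n + 1) := by
    have : (1 : ℝ) ≤ 4 ^ (n + 1) := one_le_pow₀ (by norm_num)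
    linarith
  have h2 : (DD (box q (n + 1)) {0} : ℝ) ≤ (3 * (4 : ℝ) ^ (n + 1)) ^ (n + 1) *
      Real.sqrt q ^ expo (n + 1) := by
    rw [DD, Nat.cast_prod]
    calc ∏ k ∈ Finset.univ \ {0}, ((box q (n + 1) k).card : ℝ) ≤
          ∏ k ∈ Finset.univ \ {(0 : Fin (n + 1))}, ((3 * (4 : ℝ) ^ (n + 1)) *
            Real.sqrt q ^ (n + 1 - (k : ℕ))) :=
          Finset.prod_le_prod (fun k _ => Nat.cast_nonneg _) fun k _ => hX k
      _ = (3 * (4 : ℝ) ^ (n + 1)) ^ n *
          Real.sqrt q ^ (∑ k ∈ Finset.univ \ {(0 : Fin (n + 1))}, (n + 1 - (k : ℕ))) := by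
          rw [Finset.prod_mul_distrib, Finset.prod_const, Finset.prod_pow_eq_pow_sum,
            Finset.card_sdiff_of_subset (Finset.subset_univ _), Finset.card_univ, Fintype.card_fin,
            Finset.card_singleton, Nat.add_sub_cancel]
      _ ≤ _ := by
          refine mul_le_mul (pow_le_pow_right₀ h4 (Nat.le_succ n)) (pow_le_pow_right₀ hs ?_)
            (by positivity) (by positivity)
          have h5 := sum_tot (n + 1)
          rw [← Finset.sum_sdiff (Finset.subset_univ {(0 : Fin (n + 1))}),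
            Finset.sum_singleton] at h5
          have h6 := Pool.Agent.H857.SX.expo_add_saving (g := n + 1) (Nat.succ_pos n)
          have h7 : Pool.Agent.H857.SX.saving (n + 1) ≤ n + 1 := by
            unfold Pool.Agent.H857.SX.saving
            split_ifs
            · omega
            · exact le_rfl
          have h8 : ((0 : Fin (n + 1)) : ℕ) = 0 := rfl
          omega
  calc (T.ncard : ℝ) = S.card := by rw [hcard]
    _ ≤ N * DD (box q (n + 1)) {0} := by exact_mod_cast h1
    _ ≤ N * ((3 * (4 : ℝ) ^ (n + 1)) ^ (n + 1) * Real.sqrt q ^ expo (n + 1)) :=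
        mul_le_mul_of_nonneg_left h2 (Nat.cast_nonneg _)
    _ = _ := by ring

end

section

variable {I : Type} [Fintype I] [DecidableEq I] (g : I → ℕ)

theorem exists_count_bad (hg : ∀ i, 0 < g i) (i : I) :
    ∃ C : ℝ, 0 < C ∧ ∀ q : ℕ, 0 < q →
      ({x : ∀ i, Fin (g i) → ℤ | (∀ i, wp q (g i) (x i) ∈ weilPolys q (g i)) ∧
        BadAt g i x}.ncard : ℝ) ≤
        C * (Real.sqrt q ^ expo (g i) * ∏ j ∈ Finset.univ.erase i, Real.sqrt q ^ tot (g j)) := by
  classical
  have key : ∀ n, 0 < n → ∀ (J : Type) [Fintype J] (P : J → ℤ[X]), (∀ j, (P j).Monic) → ∀ (q : ℕ),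
    0 < q → ∀ (T : Set (Fin n → ℤ)), (∀ y ∈ T, wp q n y ∈ weilPolys q n ∧ ∃ θ : ℂ,
      aeval θ (mkPoly n y) = 0 ∧ (aeval θ (derivative (mkPoly n y)) = 0 ∨
        ∃ j, aeval θ (P j) = 0)) →
    (T.ncard : ℝ) ≤ ((n + ∑ j, (P j).natDegree : ℕ) * (3 * (4 : ℝ) ^ n) ^ n) *
      Real.sqrt q ^ expo n := by
    intro n hn J _ P hP q hq T hT
    obtain ⟨n, rfl⟩ : ∃ n', n = n' + 1 := ⟨n - 1, by omega⟩
    exact fibre_bad P hP q hq T hT
  refine count_of_fibre g i (fun _ x => BadAt g i x)
    (C := ((g i + ∑ j : {j // j ≠ i}, g j : ℕ) * (3 * (4 : ℝ) ^ g i) ^ g i) + 1) (by positivity)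
    fun q hq x T hT => ?_
  have h1 := key (g i) (hg i) {j // j ≠ i} (fun j => mkPoly (g j) (x j))
    (fun j => mkPoly_monic _ _) q hq T (fun y hy => by
      obtain ⟨h2, θ, h3, h4⟩ := hT y hy
      rw [Function.update_self] at h3 h4
      refine ⟨h2, θ, h3, h4.imp id ?_⟩
      rintro ⟨j, hj, h5⟩
      rw [Function.update_of_ne hj] at h5
      exact ⟨⟨j, hj⟩, h5⟩)
  simp only [mkPoly_natDegree] at h1
  refine h1.trans (mul_le_mul_of_nonneg_right (by linarith) (by positivity))

/-- **The number of the families with multiple roots.** -/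
theorem exists_upper_sq (hg : ∀ i, 0 < g i) :
    ∃ C : ℝ, 0 < C ∧ ∀ (p : ℕ) [Fact p.Prime] (a : ℕ), 0 < a →
      ({f ∈ fams g p a | (∀ i (z : ℂ), aeval z (f i) = 0 → z ^ 2 ≠ (p ^ a : ℕ)) ∧
        ¬ Squarefree (∏ i, (f i).map (Int.castRingHom ℚ))}.ncard : ℝ) ≤
        C * famBound g (Real.sqrt ((p : ℝ) ^ a)) := by
  classical
  choose C hC h using exists_count_bad g hg
  refine ⟨∑ i, C i + 1, by
    have := Finset.sum_nonneg fun i (_ : i ∈ (Finset.univ : Finset I)) => (hC i).le
    linarith, fun p _ a ha => ?_⟩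
  have hp : p.Prime := Fact.out
  have hq : 0 < p ^ a := pow_pos hp.pos _
  have hcast : ((p ^ a : ℕ) : ℝ) = (p : ℝ) ^ a := by push_cast; rfl
  set S : I → Set (∀ i, Fin (g i) → ℤ) := fun i =>
    {x | (∀ i, wp (p ^ a) (g i) (x i) ∈ weilPolys (p ^ a) (g i)) ∧ BadAt g i x} with hS
  have hSfin : ∀ i, (S i).Finite := by
    intro i
    refine (Finset.finite_toSet (Fintype.piFinset fun i =>
      Fintype.piFinset (box (p ^ a) (g i)))).subset ?_
    rintro x ⟨hx, _⟩
    rw [Finset.mem_coe, Fintype.mem_piFinset]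
    exact fun i => mem_box hq.ne' (hx i)
  have hsub : {f ∈ fams g p a | (∀ i (z : ℂ), aeval z (f i) = 0 → z ^ 2 ≠ (p ^ a : ℕ)) ∧
      ¬ Squarefree (∏ i, (f i).map (Int.castRingHom ℚ))} ⊆
      (fun x i => wp (p ^ a) (g i) (x i)) '' ⋃ i ∈ (Finset.univ : Finset I), S i := by
    rintro f ⟨hf1, hf2, hf3⟩
    choose x hx using fun i => exists_point hq.ne' (hf1 i).1
    have hfx : f = fun i => wp (p ^ a) (g i) (x i) := funext fun i => (hx i).1
    subst hfx
    refine ⟨x, ?_, rfl⟩
    obtain ⟨i, hi⟩ := exists_bad g x (fun i z hz => by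
      rintro rfl
      have h1 := (hf1 i).1.2.2.2 0 hz
      rw [norm_zero, zero_pow two_ne_zero] at h1
      exact pow_ne_zero a hp.ne_zero (by exact_mod_cast h1.symm)) hf2 hf3
    simp only [Set.mem_iUnion]
    exact ⟨i, Finset.mem_univ i, fun i => (hf1 i).1, hi⟩
  have hUfin : (⋃ i ∈ (Finset.univ : Finset I), S i).Finite :=
    Set.Finite.biUnion (Finset.finite_toSet _) fun i _ => hSfin i
  have h1 := (Set.ncard_le_ncard hsub (hUfin.image _)).trans (Set.ncard_image_le hUfin)
  have h2 := h1.trans (Finset.set_ncard_biUnion_le Finset.univ S)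
  refine (Nat.cast_le.2 h2).trans ?_
  rw [Nat.cast_sum, famBound, Finset.mul_sum]
  refine Finset.sum_le_sum fun i _ => ?_
  have h3 := h i (p ^ a) hq
  rw [hcast] at h3
  refine h3.trans (mul_le_mul_of_nonneg_right ?_ (by positivity))
  have := Finset.single_le_sum (f := C) (fun i _ => (hC i).le) (Finset.mem_univ i)
  linarith

end

end Pool.Agent.H857.NF
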