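import Pool.Agent.H857.NF.ExcDefs
import Pool.Agent.H857.NF.SqCount
import Pool.Agent.H857.NF.Split
import Pool.Agent.H857.MX.Master

/-!
# The exceptional set with the families of polynomials with multiple roots
-/

set_option autoImplicit false
set_option linter.unusedSectionVars false

namespace Pool.Agent.H857.NF

open Polynomial Pool.Agent.H857.SX Pool.Agent.H857.PA Pool.Agent.H857.MX Pool.Agent.H857.PB
  Pool.Agent.Y1.CT

section

variable {I : Type} [Fintype I]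

/-- The order of magnitude of the number of the exceptional families. -/
theorem exists_rate_sq {g : I → ℕ} (hg : ∀ i, 0 < g i) (r : ℕ) {D : ℕ} (hD : 0 < D) (c : ℕ) :
    ∃ C : ℝ, 0 < C ∧ ∀ (p : ℕ) [Fact p.Prime] (a : ℕ), 0 < a →
      (∏ i, Real.sqrt ((p : ℝ) ^ a) ^ (g i * (g i + 1) / 2) ≤ C * (families g p a).ncard ∧
        (families g p a).ncard ≤ C * ∏ i, Real.sqrt ((p : ℝ) ^ a) ^ (g i * (g i + 1) / 2)) ∧
      ∀ (w : Fin r → ℕ) (ρ : Fin r → ℂ), (∀ k, w k < c ∧ IsWeilNumber p a D (w k) (ρ k)) →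
        ((exceptional g p a ρ).ncard : ℝ) ≤
          C * (rate g ((p : ℝ) ^ a) * (families g p a).ncard) ∧
        rate g ((p : ℝ) ^ a) * (families g p a).ncard ≤ C * (exceptional g p a ρ).ncard := by
  classical
  obtain ⟨C₁, hC₁, h₁⟩ := exists_rate hg r hD c
  obtain ⟨C₂, hC₂, h₂⟩ := exists_upper_sq g hg
  set C₃ := lowConst g with hC₃
  have hC₃0 : 0 < C₃ := lowConst_pos g
  refine ⟨C₁ + C₂ * C₃, by positivity, fun p _ a ha => ?_⟩
  have hp : p.Prime := Fact.out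
  have hsq : 0 < Real.sqrt ((p : ℝ) ^ a) := by
    rw [Real.sqrt_pos]
    have : (0 : ℝ) < p := by exact_mod_cast hp.pos
    positivity
  obtain ⟨⟨h3, h4⟩, h5⟩ := h₁ p a ha
  have hn0 : (0 : ℝ) ≤ ((families g p a).ncard : ℝ) := Nat.cast_nonneg _
  have hS0 : 0 ≤ rate g ((p : ℝ) ^ a) := Finset.sum_nonneg fun i _ => by positivity
  have hCC : (0 : ℝ) ≤ C₂ * C₃ := by positivity
  refine ⟨⟨h3.trans ?_, h4.trans ?_⟩, fun w ρ hρ => ⟨?_, ?_⟩⟩
  · exact mul_le_mul_of_nonneg_right (by linarith) hn0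
  · exact mul_le_mul_of_nonneg_right (by linarith)
      (Finset.prod_nonneg fun i _ => by positivity)
  · obtain ⟨h6, -⟩ := h5 w ρ hρ
    have hfin : (families g p a).Finite := fams_finite g
    have hsub : exceptional g p a ρ ⊆ {f ∈ families g p a | ¬ Independent f (p ^ a) ρ} ∪
        {f ∈ fams g p a | (∀ i (z : ℂ), aeval z (f i) = 0 → z ^ 2 ≠ (p ^ a : ℕ)) ∧
          ¬ Squarefree (∏ i, (f i).map (Int.castRingHom ℚ))} := by
      rintro f ⟨hf, hn⟩
      by_cases hi : Independent f (p ^ a) ρ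
      · refine Or.inr ⟨hf, hi.1, fun hs => hn ⟨hi, hs⟩⟩
      · exact Or.inl ⟨hf, hi⟩
    have hf1 : {f ∈ families g p a | ¬ Independent f (p ^ a) ρ}.Finite :=
      hfin.subset fun f hf => hf.1
    have hf2 : {f ∈ fams g p a | (∀ i (z : ℂ), aeval z (f i) = 0 → z ^ 2 ≠ (p ^ a : ℕ)) ∧
          ¬ Squarefree (∏ i, (f i).map (Int.castRingHom ℚ))}.Finite :=
      hfin.subset fun f hf => hf.1
    have h7 : ((exceptional g p a ρ).ncard : ℝ) ≤
        ({f ∈ families g p a | ¬ Independent f (p ^ a) ρ}.ncard : ℝ) +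
        ({f ∈ fams g p a | (∀ i (z : ℂ), aeval z (f i) = 0 → z ^ 2 ≠ (p ^ a : ℕ)) ∧
          ¬ Squarefree (∏ i, (f i).map (Int.castRingHom ℚ))}.ncard : ℝ) := by
      have h8 := (Set.ncard_le_ncard hsub (hf1.union hf2)).trans (Set.ncard_union_le _ _)
      exact_mod_cast h8
    have h8 := h₂ p a ha
    rw [famBound_eq hg hsq] at h8
    have h9 : (∏ i, Real.sqrt ((p : ℝ) ^ a) ^ tot (g i)) ≤ C₃ * ((families g p a).ncard : ℝ) :=
      fams_lower g ha
    have h10 : C₂ * ((∑ i, (Real.sqrt ((p : ℝ) ^ a))⁻¹ ^ saving (g i)) *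
        ∏ i, Real.sqrt ((p : ℝ) ^ a) ^ tot (g i)) ≤
        C₂ * (rate g ((p : ℝ) ^ a) * (C₃ * ((families g p a).ncard : ℝ))) :=
      mul_le_mul_of_nonneg_left (mul_le_mul_of_nonneg_left h9 hS0) hC₂.le
    calc ((exceptional g p a ρ).ncard : ℝ) ≤
          C₁ * (rate g ((p : ℝ) ^ a) * ((families g p a).ncard : ℝ)) +
          C₂ * (rate g ((p : ℝ) ^ a) * (C₃ * ((families g p a).ncard : ℝ))) :=
          h7.trans (add_le_add h6 (h8.trans h10))
      _ = _ := by ring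
  · obtain ⟨-, h6⟩ := h5 w ρ hρ
    refine h6.trans ?_
    have hsub : {f ∈ families g p a | ¬ Independent f (p ^ a) ρ} ⊆ exceptional g p a ρ := by
      rintro f ⟨hf, hn⟩
      exact ⟨hf, fun h => hn h.1⟩
    have hfin : (exceptional g p a ρ).Finite := (fams_finite g).subset fun f hf => hf.1
    have h7 : ({f ∈ families g p a | ¬ Independent f (p ^ a) ρ}.ncard : ℝ) ≤
        ((exceptional g p a ρ).ncard : ℝ) := by
      exact_mod_cast Set.ncard_le_ncard hsub hfin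
    calc C₁ * ({f ∈ families g p a | ¬ Independent f (p ^ a) ρ}.ncard : ℝ) ≤
          C₁ * ((exceptional g p a ρ).ncard : ℝ) := mul_le_mul_of_nonneg_left h7 hC₁.le
      _ ≤ _ := mul_le_mul_of_nonneg_right (by linarith) (Nat.cast_nonneg _)

/-- `Generated` is closed under roots. -/
theorem generated_of_pow {q : ℕ} {κ : Type} [Fintype κ] {ρ : κ → ℂ} {x y : ℂ} {N : ℕ}
    (hN : 0 < N) (h : x ^ N = y ^ N) (hy : Generated q ρ y) : Generated q ρ x := by
  obtain ⟨M, hM, n, t, h1⟩ := hy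
  refine ⟨N * M, Nat.mul_pos hN hM, fun k => N * n k, N * t, ?_⟩
  rw [pow_mul, h, ← pow_mul, mul_comm N M, pow_mul, h1, mul_pow]
  congr 1
  · rw [← Finset.prod_pow]
    refine Finset.prod_congr rfl fun k _ => ?_
    change (ρ k ^ n k) ^ N = ρ k ^ ((N : ℤ) * n k)
    rw [mul_comm (N : ℤ), zpow_mul, zpow_natCast]
  · rw [mul_comm (N : ℤ), zpow_mul, zpow_natCast]

theorem generated_zpow {q : ℕ} {κ : Type} [Fintype κ] {ρ : κ → ℂ} (r : ℤ) :
    Generated q ρ ((q : ℂ) ^ r) :=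
  ⟨1, one_pos, 0, r, by simp⟩

theorem generated_mul_zpow {q : ℕ} (hq : q ≠ 0) {κ : Type} [Fintype κ] {ρ : κ → ℂ} {x : ℂ} (t : ℤ)
    (hx : Generated q ρ x) : Generated q ρ (x * (q : ℂ) ^ t) := by
  obtain ⟨M, hM, n, t', h1⟩ := hx
  have hq0 : (q : ℂ) ≠ 0 := by exact_mod_cast hq
  refine ⟨M, hM, n, t' + t * M, ?_⟩
  rw [mul_pow, h1, zpow_add₀ hq0, zpow_mul, zpow_natCast, mul_assoc]

theorem balanced_of_independent {q : ℕ} {κ : Type} [Fintype κ] {ρ : κ → ℂ} {f : I → ℤ[X]}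
    (h : Independent f q ρ) : Balanced f q (Generated q ρ) := by
  classical
  intro M hM hR z
  have h1 := h.2 M.toList (fun z hz => hM z (Multiset.mem_toList.1 hz))
    (by rw [Multiset.prod_toList]; exact hR) z
  have h2 : ∀ z : ℂ, M.toList.count z = M.count z := fun z => by
    conv_rhs => rw [← Multiset.coe_toList M]
    rw [Multiset.coe_count]
  convert h1 using 1
  · convert (h2 z).symm
  · convert (h2 _).symm

/-- **The exceptional set for abelian varieties over finitely generated fields**, with any conclusion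
which follows from the absence of relations and of multiple roots. -/
theorem master (g : I → ℕ) (hg : ∀ i, 0 < g i) (r D c : ℕ) (hD : 0 < D)
    (P : ∀ (_ : ℕ) (_ : I → ℤ[X]) (_ : ℂ → Prop), Prop)
    (hP : ∀ (q : ℕ) (f : I → ℤ[X]) (R : ℂ → Prop), 1 < q →
      (∀ i, ∀ z : ℂ, aeval z (f i) = 0 → ‖z‖ ^ 2 = (q : ℝ)) → ¬ R 0 →
      (∀ (x : ℂ) (t : ℤ), R x → R (x * (q : ℂ) ^ t)) →
      NoRel f q R → TateClassesSplit R q f → P q f R) :
    ∃ C : ℝ, 0 < C ∧ ∀ (p : ℕ) [Fact p.Prime] (a : ℕ), 0 < a →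
      ((families g p a).Finite ∧
        ∏ i, Real.sqrt ((p : ℝ) ^ a) ^ (g i * (g i + 1) / 2) ≤ C * (families g p a).ncard ∧
        (families g p a).ncard ≤ C * ∏ i, Real.sqrt ((p : ℝ) ^ a) ^ (g i * (g i + 1) / 2)) ∧
      ∀ (w : Fin r → ℕ) (ρ : Fin r → ℂ), (∀ k, w k < c ∧ IsWeilNumber p a D (w k) (ρ k)) →
        (((exceptional g p a ρ).ncard : ℝ) ≤
            C * (rate g ((p : ℝ) ^ a) * (families g p a).ncard) ∧
          rate g ((p : ℝ) ^ a) * (families g p a).ncard ≤ C * (exceptional g p a ρ).ncard) ∧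
        ∀ f ∈ families g p a, f ∉ exceptional g p a ρ →
          P (p ^ a) f (Generated (p ^ a) ρ) := by
  classical
  obtain ⟨C, hC, h⟩ := exists_rate_sq hg r hD c
  refine ⟨C, hC, fun p _ a ha => ⟨⟨fams_finite g, (h p a ha).1⟩,
    fun w ρ hρ => ⟨(h p a ha).2 w ρ hρ, ?_⟩⟩⟩
  intro f hf hne
  obtain ⟨hind, hsimple⟩ : Independent f (p ^ a) ρ ∧ SimpleRoots f := by
    by_contra h
    exact hne ⟨hf, h⟩
  have hp : p.Prime := Fact.out
  have hq : 1 < p ^ a := Nat.one_lt_pow ha.ne' hp.one_lt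
  have h0 : ¬ Generated (p ^ a) ρ 0 :=
    not_generated_zero (by omega) fun k => isWeilNumber_ne_zero (hρ k).2
  refine hP (p ^ a) f _ hq (fun i z hz => (hf i).1.2.2.2 z hz) h0
    (fun x t hx => generated_mul_zpow (by omega) t hx) ((indep_iff ha (ρ := ρ) hf).2 hind) ?_
  · exact tateClassesSplit (fun i => (hf i).1.1) (fun i z hz => (hf i).1.2.2.2 z hz)
      (fun i z hz => hind.1 i z hz) hsimple (balanced_of_independent hind)
      (fun r => generated_zpow r) fun x y N hN hxy hy => generated_of_pow hN hxy hy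

end

end Pool.Agent.H857.NF
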