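import Mathlib
import Pool.Graph.R_seed8.Y137.SL.Defs

/-!
# Products of abelian varieties with one Frobenius element and arbitrary smooth varieties: definitions
-/

set_option autoImplicit false

namespace Pool.Agent.H857.NF

open Module Polynomial Pool.Agent.Y137.MV Pool.Agent.Y137.SL

section

variable {k : Type} [Field k] [CharZero k] {V : Type} [AddCommGroup V] [Module k V]
  [FiniteDimensional k V] {Γ : Type} [Group Γ] {I : Type} [Fintype I]

/-- The properties of the representation `ρ` of the Galois group `Γ` of a finitely generated field on
the Tate module `V` of an abelian variety `A` with a Frobenius element `γ` at one place of good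
reduction, with `q` elements in the residue field: `ρ` is semisimple on subgroups of finite index
(Faltings, Zarhin); it preserves a symplectic form with multiplier `χ` (the cyclotomic character;
Weil pairing of a polarization); `χ` takes the value `q` at `γ`; and the characteristic polynomial
of `γ` is the product of the polynomials `f i`. -/
structure IsTateModule (ρ : Representation k Γ V) (χ : Γ →* k) (γ : Γ) (q : ℕ) (f : I → ℤ[X]) :
    Prop where
  semisimple : FiniteIndexSemisimple ρ
  form : ∃ ω : V →ₗ[k] V →ₗ[k] k, (∀ v, ω v v = 0) ∧ (∀ u, (∀ v, ω v u = 0) → u = 0) ∧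
    ∀ s u v, ω (ρ s u) (ρ s v) = χ s * ω u v
  multiplier : χ γ = (q : k)
  charpoly : (ρ γ).charpoly = ∏ i, (f i).map (Int.castRingHom k)

end

/-- The Frobenius element `γ` satisfies on `M` a nonzero polynomial with rational coefficients all of
whose complex roots have the property `R`. -/
def EigenvaluesIn (R : ℂ → Prop) {k : Type} [Field k] [CharZero k] {M : Type} [AddCommGroup M]
    [Module k M] (φ : Module.End k M) : Prop :=
  ∃ F : ℚ[X], F ≠ 0 ∧ aeval φ (F.map (algebraMap ℚ k)) = 0 ∧ ∀ z : ℂ, aeval z F = 0 → R z

/-- `TateClassesSplit R q f`: let `Γ` be the Galois group of a finitely generated field, `V` the Tate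
module of an abelian variety `A` over this field with a Frobenius element `γ` at one place as in
`IsTateModule`, and `M` any finite-dimensional representation of `Γ`, for instance a cohomology group
`H^b(U, ℚ_ℓ(i))` of a smooth projective variety `U`, such that the eigenvalues of this one element `γ`
on `M` have the property `R` (`EigenvaluesIn`). Then the alternating maps of `j` variables from `V ^ n`
to `M`, that is the elements of `H^j(A ^ n) ⊗ M`, which are fixed by an open subgroup of `Γ`, are zero
if `j` is odd, and linear combinations of the products of `m` Tate classes of degree two on `A ^ n` and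
of Tate classes in `M(-m)` if `j = 2 m` (`ClassesSplit`). -/
def TateClassesSplit (R : ℂ → Prop) (q : ℕ) {I : Type} [Fintype I] (f : I → ℤ[X]) : Prop :=
  ∀ (k : Type) [Field k] [CharZero k] (V : Type) [AddCommGroup V] [Module k V]
    [FiniteDimensional k V] (M : Type) [AddCommGroup M] [Module k M] [FiniteDimensional k M]
    (Γ : Type) [Group Γ] (ρ : Representation k Γ V) (τ : Representation k Γ M) (χ : Γ →* k)
    (γ : Γ), IsTateModule ρ χ γ q f → EigenvaluesIn R (τ γ) → ClassesSplit ρ χ τ

end Pool.Agent.H857.NF
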