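import Pool.Agent.H857.PA.Fibre

/-!
# Families of Weil polynomials with multiple roots
-/

set_option autoImplicit false

namespace Pool.Agent.H857.NF

open Polynomial Pool.Agent.W521.Frob Pool.Agent.W521.Density Pool.Agent.W521.Count
  Pool.Agent.H857.PA

/-- The value of a Weil polynomial. -/
lemma eval_wp {q g : ℕ} (x : Fin g → ℤ) {z : ℂ} (hz : z ≠ 0) :
    eval z ((wp q g x).map (Int.castRingHom ℂ)) =
      z ^ g * eval (z + q / z) ((mkPoly g x).map (Int.castRingHom ℂ)) := by
  have h1 := aeval_weil q (mkPoly g x) z (z + q / z) (by field_simp)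
  rw [mkPoly_natDegree] at h1
  rw [eval_map, eval_map]
  exact h1

/-- The derivative of a Weil polynomial at a root. -/
lemma eval_derivative_wp {q g : ℕ} (x : Fin g → ℤ) {z : ℂ} (hz : z ≠ 0)
    (h0 : eval (z + q / z) ((mkPoly g x).map (Int.castRingHom ℂ)) = 0) :
    eval z (derivative ((wp q g x).map (Int.castRingHom ℂ))) =
      z ^ g * (eval (z + q / z) (derivative ((mkPoly g x).map (Int.castRingHom ℂ))) *
        (1 - q / z ^ 2)) := by
  set F := (wp q g x).map (Int.castRingHom ℂ) with hF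
  set H := (mkPoly g x).map (Int.castRingHom ℂ) with hH
  have h1 : HasDerivAt (fun w => eval w F) (eval z (derivative F)) z := F.hasDerivAt z
  have h2 : HasDerivAt (fun w : ℂ => w + q / w) (1 - q / z ^ 2) z := by
    have h3 : HasDerivAt (fun w : ℂ => (q : ℂ) / w) (-(q : ℂ) / z ^ 2) z := by
      have h4 := (hasDerivAt_inv hz).const_mul (q : ℂ)
      refine (h4.congr_deriv ?_).congr_of_eventuallyEq (Filter.Eventually.of_forall fun w => ?_)
      · ring
      · exact div_eq_mul_inv _ _
    refine ((hasDerivAt_id z).add h3).congr_deriv ?_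
    ring
  have h3 : HasDerivAt (fun w : ℂ => w ^ g * eval (w + q / w) H)
      ((g : ℂ) * z ^ (g - 1) * eval (z + q / z) H +
        z ^ g * (eval (z + q / z) (derivative H) * (1 - q / z ^ 2))) z := by
    have h6 : HasDerivAt (fun w : ℂ => eval (w + q / w) H)
        (eval (z + q / z) (derivative H) * (1 - q / z ^ 2)) z :=
      HasDerivAt.comp (h₂ := fun y => eval y H) z (H.hasDerivAt (z + q / z)) h2
    exact (hasDerivAt_pow g z).mul h6
  have h4 : (fun w : ℂ => w ^ g * eval (w + q / w) H) =ᶠ[nhds z] fun w => eval w F := by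
    filter_upwards [isOpen_ne.mem_nhds hz] with w hw
    exact (eval_wp x hw).symm
  have h5 := h1.unique (h4.symm.hasDerivAt_iff.2 h3)
  rw [h5, h0, mul_zero, zero_add]

/-- The families for which the product of the Weil polynomials has a multiple root. -/
theorem exists_bad {I : Type} [Fintype I] {q : ℕ} (g : I → ℕ)
    (x : ∀ i, Fin (g i) → ℤ)
    (hw : ∀ i (z : ℂ), aeval z (wp q (g i) (x i)) = 0 → z ≠ 0)
    (h2 : ∀ i (z : ℂ), aeval z (wp q (g i) (x i)) = 0 → z ^ 2 ≠ q)
    (hsq : ¬ Squarefree (∏ i, (wp q (g i) (x i)).map (Int.castRingHom ℚ))) :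
    ∃ i, ∃ θ : ℂ, aeval θ (mkPoly (g i) (x i)) = 0 ∧
      (aeval θ (derivative (mkPoly (g i) (x i))) = 0 ∨
        ∃ j, j ≠ i ∧ aeval θ (mkPoly (g j) (x j)) = 0) := by
  classical
  by_contra hcon
  push Not at hcon
  apply hsq
  have hmapmap : ∀ i, ((wp q (g i) (x i)).map (Int.castRingHom ℚ)).map (algebraMap ℚ ℂ) =
      (wp q (g i) (x i)).map (Int.castRingHom ℂ) := by
    intro i
    rw [Polynomial.map_map]
    congr 1
  refine Separable.squarefree ?_
  rw [← separable_map (algebraMap ℚ ℂ), Polynomial.map_prod]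
  simp only [hmapmap]
  have hθ : ∀ i (z : ℂ), eval z ((wp q (g i) (x i)).map (Int.castRingHom ℂ)) = 0 →
      z ≠ 0 ∧ z ^ 2 ≠ q ∧ aeval (z + q / z) (mkPoly (g i) (x i)) = 0 := by
    intro i z hz
    have hz' : aeval z (wp q (g i) (x i)) = 0 := by
      rw [eval_map] at hz
      exact hz
    have hz0 := hw i z hz'
    refine ⟨hz0, h2 i z hz', ?_⟩
    rw [eval_wp _ hz0] at hz
    have h3 := (mul_eq_zero.1 hz).resolve_left (pow_ne_zero _ hz0)
    rw [eval_map] at h3
    exact h3
  refine separable_prod (fun i j hij => ?_) fun i => ?_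
  · change IsCoprime _ _
    rw [isCoprime_iff_aeval_ne_zero_of_isAlgClosed ℂ ℂ]
    intro z
    by_contra hc
    push Not at hc
    obtain ⟨h3, h4⟩ := hc
    rw [coe_aeval_eq_eval] at h3 h4
    obtain ⟨-, -, h5⟩ := hθ i z h3
    obtain ⟨-, -, h6⟩ := hθ j z h4
    exact (hcon i _ h5).2 j hij.symm h6
  · unfold Separable
    rw [isCoprime_iff_aeval_ne_zero_of_isAlgClosed ℂ ℂ]
    intro z
    by_contra hc
    push Not at hc
    obtain ⟨h3, h4⟩ := hc
    rw [coe_aeval_eq_eval] at h3 h4
    obtain ⟨hz0, hz2, h5⟩ := hθ i z h3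
    have h6 : eval (z + q / z) ((mkPoly (g i) (x i)).map (Int.castRingHom ℂ)) = 0 := by
      rw [eval_map]
      exact h5
    rw [eval_derivative_wp _ hz0 h6] at h4
    have h7 : (1 - (q : ℂ) / z ^ 2) ≠ 0 := by
      intro h8
      rw [sub_eq_zero, eq_div_iff (pow_ne_zero 2 hz0), one_mul] at h8
      exact hz2 h8
    have h8 := (mul_eq_zero.1 ((mul_eq_zero.1 h4).resolve_left
      (pow_ne_zero _ hz0))).resolve_right h7
    rw [derivative_map, eval_map] at h8
    exact (hcon i _ h5).1 h8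

end Pool.Agent.H857.NF
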